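import Mathlib

set_option autoImplicit false

namespace Pool.Agent.Work.MP_e693fe_lc

open Finset

/-- No `k`-element subset of `X` is shattered by the family `S : J → X → Prop`. -/
def NoShatter {X J : Type*} (S : J → X → Prop) (k : ℕ) : Prop :=
  ∀ A : Finset X, A.card = k → ∃ B ⊆ A, ∀ j : J, ¬ (∀ a ∈ A, (a ∈ B ↔ S j a))

/-- Sauer-Shelah: polynomially many traces. -/
theorem card_le_of_traces {X J : Type*} {S : J → X → Prop} {k : ℕ} (hS : NoShatter S k)
    (Y : Finset X) (I : Finset J)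
    (hI : ∀ i ∈ I, ∀ j ∈ I, i ≠ j → ∃ y ∈ Y, ¬ (S i y ↔ S j y)) :
    I.card ≤ k * (Y.card + 1) ^ k := by
  classical
  set F : J → Finset X := fun j => Y.filter (fun y => S j y) with hF
  set 𝒜 : Finset (Finset X) := I.image F with h𝒜
  have hinj : Set.InjOn F I := by
    intro i hi j hj hij
    by_contra hne
    obtain ⟨y, hy, hxy⟩ := hI i hi j hj hne
    apply hxy
    have : y ∈ F i ↔ y ∈ F j := by rw [hij]
    simpa [hF, hy] using this
  have hcard : 𝒜.card = I.card := Finset.card_image_of_injOn hinj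
  have h1 : 𝒜.card ≤ 𝒜.shatterer.card := Finset.card_le_card_shatterer 𝒜
  have h2 : 𝒜.shatterer ⊆ (Finset.range k).biUnion (fun i => Y.powersetCard i) := by
    intro s hs
    rw [Finset.mem_shatterer] at hs
    rw [Finset.mem_biUnion]
    have hsub : s ⊆ Y := by
      obtain ⟨t, ht, hst⟩ := hs.exists_superset
      rw [h𝒜, Finset.mem_image] at ht
      obtain ⟨j, _, rfl⟩ := ht
      exact hst.trans (Finset.filter_subset _ _)
    refine ⟨s.card, ?_, Finset.mem_powersetCard.2 ⟨hsub, rfl⟩⟩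
    rw [Finset.mem_range]
    by_contra hk
    push Not at hk
    obtain ⟨A, hAs, hA⟩ := Finset.exists_subset_card_eq hk
    have hshA := hs.mono_right hAs
    obtain ⟨B, hBA, hB⟩ := hS A hA
    obtain ⟨u, hu, huB⟩ := hshA hBA
    rw [h𝒜, Finset.mem_image] at hu
    obtain ⟨j, _, rfl⟩ := hu
    apply hB j
    intro a ha
    rw [← huB]
    simp only [hF, Finset.mem_inter, Finset.mem_filter]
    constructor
    · rintro ⟨_, _, h⟩; exact h
    · intro h; exact ⟨ha, hsub (hAs ha), h⟩
  calc I.card = 𝒜.card := hcard.symm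
    _ ≤ 𝒜.shatterer.card := h1
    _ ≤ ((Finset.range k).biUnion (fun i => Y.powersetCard i)).card := Finset.card_le_card h2
    _ ≤ ∑ i ∈ Finset.range k, (Y.powersetCard i).card := Finset.card_biUnion_le
    _ ≤ ∑ i ∈ Finset.range k, (Y.card + 1) ^ k := by
        apply Finset.sum_le_sum
        intro i hi
        rw [Finset.card_powersetCard]
        calc Y.card.choose i ≤ Y.card ^ i := Nat.choose_le_pow _ _
          _ ≤ (Y.card + 1) ^ i := Nat.pow_le_pow_left (Nat.le_succ _) _
          _ ≤ (Y.card + 1) ^ k := Nat.pow_le_pow_right (Nat.succ_pos _) (Finset.mem_range.1 hi).le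
    _ = k * (Y.card + 1) ^ k := by rw [Finset.sum_const, Finset.card_range, smul_eq_mul]

/-- Number of points satisfying a predicate. -/
noncomputable def cnt {ι : Type*} [Fintype ι] (Q : ι → Prop) : ℕ :=
  (@Finset.filter ι Q (Classical.decPred Q) Finset.univ).card

theorem cnt_eq {ι : Type*} [Fintype ι] (Q : ι → Prop) [DecidablePred Q] :
    cnt Q = (Finset.univ.filter Q).card := by
  unfold cnt
  congr

theorem cnt_mono {ι : Type*} [Fintype ι] {Q R : ι → Prop} (h : ∀ a, Q a → R a) :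
    cnt Q ≤ cnt R := by
  classical
  rw [cnt_eq, cnt_eq]
  exact Finset.card_le_card (fun a ha => by
    simp only [Finset.mem_filter, Finset.mem_univ, true_and] at ha ⊢
    exact h a ha)

theorem cnt_add_not {ι : Type*} [Fintype ι] (Q : ι → Prop) :
    cnt Q + cnt (fun a => ¬ Q a) = Fintype.card ι := by
  classical
  rw [cnt_eq, cnt_eq, ← Finset.card_univ (α := ι)]
  exact Finset.card_filter_add_card_filter_not _

theorem cnt_or_le {ι : Type*} [Fintype ι] (Q R : ι → Prop) :
    cnt (fun a => Q a ∨ R a) ≤ cnt Q + cnt R := by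
  classical
  rw [cnt_eq, cnt_eq, cnt_eq, Finset.filter_or]
  exact Finset.card_union_le _ _

theorem cnt_exists_le {ι β : Type*} [Fintype ι] (s : Finset β) (Q : β → ι → Prop) :
    cnt (fun a => ∃ b ∈ s, Q b a) ≤ ∑ b ∈ s, cnt (Q b) := by
  classical
  rw [cnt_eq]
  calc _ ≤ (s.biUnion (fun b => Finset.univ.filter (Q b))).card := by
        apply Finset.card_le_card
        intro a
        simp
    _ ≤ ∑ b ∈ s, (Finset.univ.filter (Q b)).card := Finset.card_biUnion_le
    _ = _ := Finset.sum_congr rfl (fun b _ => (cnt_eq _).symm)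

theorem cnt_true {ι : Type*} [Fintype ι] {Q : ι → Prop} (h : ∀ a, Q a) :
    cnt Q = Fintype.card ι := by
  classical
  rw [cnt_eq, ← Finset.card_univ (α := ι)]
  congr 1
  ext a
  simp [h a]

/-- Number of sample points at which two members of the family differ. -/
noncomputable def dist {X J ι : Type*} [Fintype ι] (S : J → X → Prop) (pt : ι → X) (i j : J) : ℕ :=
  cnt (fun a : ι => ¬ (S i (pt a) ↔ S j (pt a)))

/-- If all pairs are `1/q`-separated and `m` is large, some `m` sample points separate all pairs. -/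
theorem exists_separating {X J ι : Type*} [Fintype ι] [Nonempty ι] (S : J → X → Prop) (pt : ι → X)
    (q : ℕ) (hq : 0 < q) (I : Finset J) (m p : ℕ) (hI : I.card ≤ 2 ^ p) (hm : m = 2 * p * q)
    (hp : 0 < p)
    (hsep : ∀ i ∈ I, ∀ j ∈ I, i ≠ j → Fintype.card ι ≤ q * dist S pt i j) :
    ∃ x : Fin m → ι, ∀ i ∈ I, ∀ j ∈ I, i ≠ j → ∃ l, ¬ (S i (pt (x l)) ↔ S j (pt (x l))) := by
  classical
  by_contra hcon
  push Not at hcon
  -- every tuple fails for some pair
  set n := Fintype.card ι with hn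
  have hn0 : 0 < n := Fintype.card_pos
  set bad : J × J → Finset (Fin m → ι) := fun pr =>
    Fintype.piFinset (fun _ : Fin m => Finset.univ.filter (fun a : ι => (S pr.1 (pt a) ↔ S pr.2 (pt a))))
    with hbad
  have hcover : (Finset.univ : Finset (Fin m → ι)) ⊆
      (I.offDiag).biUnion bad := by
    intro x _
    obtain ⟨i, hi, j, hj, hij, h⟩ := hcon x
    rw [Finset.mem_biUnion]
    refine ⟨(i, j), Finset.mem_offDiag.2 ⟨hi, hj, hij⟩, ?_⟩
    rw [hbad, Fintype.mem_piFinset]
    intro l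
    simpa using h l
  have hcardbad : ∀ pr ∈ I.offDiag, (q * 1) ^ m * (bad pr).card ≤ ((q - 1) * n) ^ m := by
    intro pr hpr
    obtain ⟨hi, hj, hij⟩ := Finset.mem_offDiag.1 hpr
    rw [hbad]
    simp only []
    rw [Fintype.card_piFinset_const, mul_one, ← mul_pow]
    apply Nat.pow_le_pow_left
    have h1 := hsep _ hi _ hj hij
    have h2 : (Finset.univ.filter (fun a : ι => (S pr.1 (pt a) ↔ S pr.2 (pt a)))).card
        + dist S pt pr.1 pr.2 = n := by
      rw [dist, hn, ← cnt_eq]
      exact cnt_add_not _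
    have h3 : q * (Finset.univ.filter (fun a : ι => (S pr.1 (pt a) ↔ S pr.2 (pt a)))).card
        + n ≤ q * n := by
      calc _ ≤ q * (Finset.univ.filter (fun a : ι => (S pr.1 (pt a) ↔ S pr.2 (pt a)))).card
          + q * dist S pt pr.1 pr.2 := by omega
        _ = q * n := by rw [← mul_add, h2]
    have h4 : (q - 1) * n + n = q * n := by
      obtain ⟨q', rfl⟩ : ∃ q', q = q' + 1 := ⟨q - 1, by omega⟩
      simp; ring
    omega
  have hcount : n ^ m ≤ ∑ pr ∈ I.offDiag, (bad pr).card := by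
    calc n ^ m = (Finset.univ : Finset (Fin m → ι)).card := by
          rw [Finset.card_univ, Fintype.card_fun, Fintype.card_fin]
      _ ≤ ((I.offDiag).biUnion bad).card := Finset.card_le_card hcover
      _ ≤ _ := Finset.card_biUnion_le
  have hoff : I.offDiag.card ≤ (2 ^ p) * (2 ^ p) := by
    rw [Finset.offDiag_card]
    calc _ ≤ I.card * I.card := Nat.sub_le _ _
      _ ≤ _ := Nat.mul_le_mul hI hI
  have hfin : q ^ m * n ^ m ≤ (2 ^ p * 2 ^ p) * ((q - 1) ^ m * n ^ m) := by
    calc q ^ m * n ^ m ≤ q ^ m * ∑ pr ∈ I.offDiag, (bad pr).card := Nat.mul_le_mul_left _ hcount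
      _ = ∑ pr ∈ I.offDiag, (q * 1) ^ m * (bad pr).card := by rw [Finset.mul_sum, mul_one]
      _ ≤ ∑ pr ∈ I.offDiag, ((q - 1) * n) ^ m := Finset.sum_le_sum hcardbad
      _ = I.offDiag.card * ((q - 1) * n) ^ m := by rw [Finset.sum_const, smul_eq_mul]
      _ ≤ (2 ^ p * 2 ^ p) * ((q - 1) * n) ^ m := Nat.mul_le_mul_right _ hoff
      _ = _ := by rw [mul_pow]
  have hfin2 : q ^ m ≤ (2 ^ p * 2 ^ p) * (q - 1) ^ m := by
    have : 0 < n ^ m := Nat.pow_pos hn0
    rw [← mul_assoc] at hfin
    exact Nat.le_of_mul_le_mul_right hfin this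
  -- but `2 (q-1)^q < q^q`
  have hkey : 2 * (q - 1) ^ q < q ^ q := by
    obtain ⟨r, rfl⟩ : ∃ r, q = r + 1 := ⟨q - 1, by omega⟩
    simp only [Nat.add_sub_cancel]
    rcases Nat.eq_zero_or_pos r with h0 | h0
    · subst h0; simp
    · have hb : (1 : ℝ) + ((r + 1 : ℕ) : ℝ) * (1 / r) ≤ (1 + 1 / (r : ℝ)) ^ (r + 1) := by
        apply one_add_mul_le_pow
        have : (0 : ℝ) < r := by exact_mod_cast h0
        have : (0 : ℝ) ≤ 1 / (r : ℝ) := by positivity
        linarith
      have hr : (0 : ℝ) < r := by exact_mod_cast h0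
      have h2 : (2 : ℝ) < (1 + 1 / (r : ℝ)) ^ (r + 1) := by
        refine lt_of_lt_of_le ?_ hb
        push_cast
        have : ((r : ℝ) + 1) * (1 / r) = 1 + 1 / r := by field_simp
        rw [this]
        have : (0 : ℝ) < 1 / (r : ℝ) := by positivity
        linarith
      have h3 : (2 : ℝ) * (r : ℝ) ^ (r + 1) < ((r : ℝ) + 1) ^ (r + 1) := by
        have h4 : ((r : ℝ) + 1) ^ (r + 1) = (1 + 1 / (r : ℝ)) ^ (r + 1) * (r : ℝ) ^ (r + 1) := by
          rw [← mul_pow]; congr 1; field_simp
        rw [h4]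
        exact mul_lt_mul_of_pos_right h2 (by positivity)
      exact_mod_cast h3
  have hpow : (2 * (q - 1) ^ q) ^ (2 * p) < (q ^ q) ^ (2 * p) :=
    Nat.pow_lt_pow_left hkey (by omega)
  have e1 : (2 * (q - 1) ^ q) ^ (2 * p) = (2 ^ p * 2 ^ p) * (q - 1) ^ m := by
    rw [hm, mul_pow, ← pow_mul, ← pow_add]
    congr 2
    · ring
    · ring
  have e2 : (q ^ q) ^ (2 * p) = q ^ m := by
    rw [hm, ← pow_mul]; congr 1; ring
  rw [e1, e2] at hpow
  omega

/-- Packing lemma (weak form of Haussler's). -/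
theorem packing (k q : ℕ) (hq : 0 < q) : ∃ N : ℕ, ∀ {X J ι : Type} [Fintype ι] [Nonempty ι]
    (S : J → X → Prop) (pt : ι → X), NoShatter S k → ∀ I : Finset J,
    (∀ i ∈ I, ∀ j ∈ I, i ≠ j → Fintype.card ι ≤ q * dist S pt i j) → I.card ≤ N := by
  classical
  -- choose `p` with `k (2 p q + 1)^k < 2^p`
  obtain ⟨p, hp0, hp⟩ : ∃ p : ℕ, 0 < p ∧ k * (2 * p * q + 1) ^ k < 2 ^ p := by
    have h1 : Filter.Tendsto (fun p : ℕ => ((p : ℝ) ^ k) / (2 : ℝ) ^ p) Filter.atTop (nhds 0) :=
      tendsto_pow_const_div_const_pow_of_one_lt k (by norm_num)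
    have h2 : Filter.Tendsto (fun p : ℕ => ((k : ℝ) * (3 * q) ^ k) * (((p : ℝ) ^ k) / (2 : ℝ) ^ p))
        Filter.atTop (nhds (((k : ℝ) * (3 * q) ^ k) * 0)) := h1.const_mul _
    rw [mul_zero] at h2
    have h3 := (h2.eventually (gt_mem_nhds (show (0 : ℝ) < 1 by norm_num))).and
      (Filter.eventually_ge_atTop 1)
    obtain ⟨p, hp, hp1⟩ := h3.exists
    refine ⟨p, hp1, ?_⟩
    have h2p : (0 : ℝ) < 2 ^ p := by positivity
    have h4 : (k : ℝ) * (3 * q) ^ k * (p : ℝ) ^ k < 2 ^ p := by
      have := mul_lt_mul_of_pos_right hp h2p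
      rw [one_mul] at this
      calc (k : ℝ) * (3 * q) ^ k * (p : ℝ) ^ k = (k : ℝ) * (3 * q) ^ k * ((p : ℝ) ^ k / 2 ^ p) * 2 ^ p := by
            field_simp
        _ < 2 ^ p := this
    have h5 : k * (3 * q * p) ^ k < 2 ^ p := by
      have : (k : ℝ) * (3 * q * p) ^ k < 2 ^ p := by
        calc (k : ℝ) * (3 * q * p) ^ k = (k : ℝ) * (3 * q) ^ k * (p : ℝ) ^ k := by
              rw [mul_pow (3 * (q : ℝ)) (p : ℝ)]; ring
          _ < 2 ^ p := h4
      exact_mod_cast this
    refine lt_of_le_of_lt ?_ h5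
    apply Nat.mul_le_mul_left
    apply Nat.pow_le_pow_left
    have : 1 ≤ q * p := Nat.mul_pos hq hp1
    nlinarith
  refine ⟨2 ^ p, ?_⟩
  intro X J ι _ _ S pt hS I hI
  by_contra hcon
  push Not at hcon
  obtain ⟨I', hI'I, hI'⟩ := Finset.exists_subset_card_eq hcon.le
  obtain ⟨x, hx⟩ := exists_separating S pt q hq I' (2 * p * q) p hI'.le rfl hp0
    (fun i hi j hj hij => hI i (hI'I hi) j (hI'I hj) hij)
  have h1 := card_le_of_traces hS (Finset.univ.image (fun l => pt (x l))) I' (by
    intro i hi j hj hij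
    obtain ⟨l, hl⟩ := hx i hi j hj hij
    exact ⟨pt (x l), Finset.mem_image.2 ⟨l, Finset.mem_univ _, rfl⟩, hl⟩)
  have h2 : (Finset.univ.image (fun l => pt (x l))).card ≤ 2 * p * q := by
    calc _ ≤ (Finset.univ : Finset (Fin (2 * p * q))).card := Finset.card_image_le
      _ = _ := by simp
  have h3 : k * ((Finset.univ.image (fun l => pt (x l))).card + 1) ^ k ≤ k * (2 * p * q + 1) ^ k :=
    Nat.mul_le_mul_left _ (Nat.pow_le_pow_left (Nat.add_le_add_right h2 1) _)
  omega

/-- Colouring form of the packing lemma. -/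
theorem colouring (k q : ℕ) (hq : 0 < q) : ∃ N : ℕ, 0 < N ∧ ∀ {X J ι : Type} [Nonempty J] [Fintype ι]
    [Nonempty ι] (S : J → X → Prop) (pt : ι → X), NoShatter S k →
    ∃ C : J → Fin N, ∀ s s', C s = C s' → q * dist S pt s s' < 2 * Fintype.card ι := by
  classical
  obtain ⟨N, hN⟩ := packing k q hq
  refine ⟨N + 1, Nat.succ_pos _, ?_⟩
  intro X J ι _ _ _ S pt hS
  set Sep : Finset J → Prop := fun I => ∀ i ∈ I, ∀ j ∈ I, i ≠ j →
    Fintype.card ι ≤ q * dist S pt i j with hSep
  -- maximal separated set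
  have hex : ∃ I : Finset J, Sep I ∧ ∀ I' : Finset J, Sep I' → I'.card ≤ I.card := by
    by_contra hcon
    push Not at hcon
    have : ∀ n : ℕ, ∃ I : Finset J, Sep I ∧ n ≤ I.card := by
      intro n
      induction n with
      | zero => exact ⟨∅, by intro i hi; simp at hi, Nat.zero_le _⟩
      | succ n ih =>
        obtain ⟨I, hI, hn⟩ := ih
        obtain ⟨I', hI', hlt⟩ := hcon I hI
        exact ⟨I', hI', by omega⟩
    obtain ⟨I, hI, hn⟩ := this (N + 1)
    have := hN S pt hS I hI
    omega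
  obtain ⟨I, hI, hmax⟩ := hex
  have hcov : ∀ s : J, ∃ s' ∈ I, q * dist S pt s s' < Fintype.card ι := by
    intro s
    by_contra hcon
    push Not at hcon
    have hs : s ∉ I := by
      intro hs
      have h0 := hcon s hs
      have : dist S pt s s = 0 := by
        rw [dist, cnt_eq]; simp
      rw [this, mul_zero] at h0
      have := Fintype.card_pos (α := ι)
      omega
    have hsym : ∀ i j, dist S pt i j = dist S pt j i := by
      intro i j
      unfold dist
      exact le_antisymm (cnt_mono (fun a ha => by tauto)) (cnt_mono (fun a ha => by tauto))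
    have h1 : Sep (insert s I) := by
      intro i hi j hj hij
      rw [Finset.mem_insert] at hi hj
      rcases hi with rfl | hi <;> rcases hj with rfl | hj
      · exact absurd rfl hij
      · exact hcon j hj
      · rw [hsym]; exact hcon i hi
      · exact hI i hi j hj hij
    have h2 := hmax _ h1
    rw [Finset.card_insert_of_notMem hs] at h2
    omega
  choose c hcI hc using hcov
  have hcard : I.card ≤ N := hN S pt hS I hI
  have hemb : ∃ e : I → Fin (N + 1), Function.Injective e := by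
    have : Fintype.card I ≤ Fintype.card (Fin (N + 1)) := by
      rw [Fintype.card_coe, Fintype.card_fin]; omega
    exact (Function.Embedding.nonempty_of_card_le this).elim fun e => ⟨e, e.injective⟩
  obtain ⟨e, he⟩ := hemb
  refine ⟨fun s => e ⟨c s, hcI s⟩, ?_⟩
  intro s s' hss
  have h1 : c s = c s' := by
    have := he hss
    simpa using this
  have h2 := hc s
  have h3 := hc s'
  rw [← h1] at h3
  have htri : dist S pt s s' ≤ dist S pt s (c s) + dist S pt s' (c s) := by
    unfold dist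
    exact le_trans (cnt_mono (fun a ha => by tauto)) (cnt_or_le _ _)
  calc q * dist S pt s s' ≤ q * (dist S pt s (c s) + dist S pt s' (c s)) :=
        Nat.mul_le_mul_left _ htri
    _ = q * dist S pt s (c s) + q * dist S pt s' (c s) := by ring
    _ < 2 * Fintype.card ι := by omega

end Pool.Agent.Work.MP_e693fe_lc
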