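import Mathlib
import Pool.Agent.Work.MP_e693fe_lc.Packing

set_option autoImplicit false

namespace Pool.Agent.Work.MP_e693fe_lc

open Finset

section Box

variable {K : Type} [AddCommGroup K]

/-- sample points of a box -/
def boxPt {γ : Type} [Fintype γ] (M : ℕ) (g : γ → K) (a : γ → Fin M) : K :=
  ∑ i, (a i : ℕ) • g i

/-- Folner property of the box: translating by a generator loses at most `1/M` of the points. -/
theorem box_shift {γ : Type} [Fintype γ] [DecidableEq γ] (M : ℕ) (hM : 0 < M) (g : γ → K) (i : γ)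
    (E : K → Prop) :
    M * cnt (fun a : γ → Fin M => E (boxPt M g a)) ≤
      M * cnt (fun a : γ → Fin M => E (boxPt M g a - g i)) +
        Fintype.card (γ → Fin M) := by
  classical
  rw [cnt_eq, cnt_eq]
  have : NeZero M := ⟨hM.ne'⟩
  -- points with `a i = M - 1`
  set top : Finset (γ → Fin M) := Finset.univ.filter (fun a => (a i : ℕ) = M - 1) with htop
  have hsplit : (Finset.univ.filter (fun a : γ → Fin M => E (boxPt M g a))).card ≤
      (Finset.univ.filter (fun a : γ → Fin M => E (boxPt M g a - g i))).card + top.card := by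
    have h1 : (Finset.univ.filter (fun a : γ → Fin M => E (boxPt M g a))) ⊆
        (Finset.univ.filter (fun a : γ → Fin M => E (boxPt M g a) ∧ (a i : ℕ) ≠ M - 1)) ∪ top := by
      intro a ha
      simp only [Finset.mem_filter, Finset.mem_univ, true_and, Finset.mem_union, htop] at ha ⊢
      tauto
    have h2 : (Finset.univ.filter (fun a : γ → Fin M => E (boxPt M g a) ∧ (a i : ℕ) ≠ M - 1)).card ≤
        (Finset.univ.filter (fun a : γ → Fin M => E (boxPt M g a - g i))).card := by
      refine Finset.card_le_card_of_injOn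
        (fun a => Function.update a i (Fin.ofNat M ((a i : ℕ) + 1))) ?_ ?_
      · intro a ha
        simp only [Finset.coe_filter, Finset.mem_univ, true_and, Set.mem_ofPred_eq] at ha ⊢
        obtain ⟨hE, hne⟩ := ha
        have hlt : (a i : ℕ) + 1 < M := by
          have := (a i).2
          omega
        have hval : ((Fin.ofNat M ((a i : ℕ) + 1) : Fin M) : ℕ) = (a i : ℕ) + 1 := by
          simp [Fin.ofNat, Nat.mod_eq_of_lt hlt]
        have : boxPt M g (Function.update a i (Fin.ofNat M ((a i : ℕ) + 1))) - g i = boxPt M g a := by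
          unfold boxPt
          rw [← Finset.add_sum_erase _ _ (Finset.mem_univ i),
            ← Finset.add_sum_erase Finset.univ (fun j => (a j : ℕ) • g j) (Finset.mem_univ i)]
          rw [Function.update_self, hval, add_smul, one_smul]
          have : ∑ x ∈ Finset.univ.erase i, ((Function.update a i (Fin.ofNat M ((a i : ℕ) + 1))) x : ℕ) • g x
              = ∑ x ∈ Finset.univ.erase i, (a x : ℕ) • g x := by
            apply Finset.sum_congr rfl
            intro x hx
            rw [Function.update_of_ne (Finset.ne_of_mem_erase hx)]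
          rw [this]; abel
        rw [this]; exact hE
      · intro a ha b hb hab
        simp only [Finset.coe_filter, Finset.mem_univ, true_and, Set.mem_ofPred_eq] at ha hb
        have hlta : (a i : ℕ) + 1 < M := by have := (a i).2; omega
        have hltb : (b i : ℕ) + 1 < M := by have := (b i).2; omega
        funext x
        by_cases hx : x = i
        · subst hx
          have := congrFun hab x
          simp only [Function.update_self] at this
          have h3 := congrArg Fin.val this
          simp [Fin.ofNat, Nat.mod_eq_of_lt hlta, Nat.mod_eq_of_lt hltb] at h3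
          exact Fin.ext h3
        · have := congrFun hab x
          simpa [Function.update_of_ne hx] using this
    calc _ ≤ _ := Finset.card_le_card h1
      _ ≤ _ := Finset.card_union_le _ _
      _ ≤ _ := Nat.add_le_add_right h2 _
  have htopcard : M * top.card ≤ Fintype.card (γ → Fin M) := by
    -- the M translates of `top` in coordinate `i` are disjoint
    have : top.card * M = (top ×ˢ (Finset.univ : Finset (Fin M))).card := by
      rw [Finset.card_product]; simp
    rw [mul_comm, this, ← Finset.card_univ]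
    refine Finset.card_le_card_of_injOn (fun pr => Function.update pr.1 i pr.2) (fun _ _ => Finset.mem_coe.2 (Finset.mem_univ _)) ?_
    rintro ⟨a, x⟩ ha ⟨b, y⟩ hb hab
    simp only [Finset.coe_product, Set.mem_prod, Finset.mem_coe, htop, Finset.mem_filter,
      Finset.mem_univ, true_and, and_true] at ha hb
    simp only at hab
    have hxy : x = y := by
      have := congrFun hab i
      simpa using this
    have hab' : a = b := by
      funext z
      by_cases hz : z = i
      · subst hz; exact Fin.ext (by rw [ha, hb])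
      · have := congrFun hab z
        simpa [Function.update_of_ne hz] using this
    rw [hxy, hab']
  calc _ ≤ M * ((Finset.univ.filter (fun a : γ → Fin M => E (boxPt M g a - g i))).card + top.card) :=
        Nat.mul_le_mul_left _ hsplit
    _ = M * (Finset.univ.filter (fun a : γ → Fin M => E (boxPt M g a - g i))).card + M * top.card := by
        ring
    _ ≤ _ := Nat.add_le_add_left htopcard _

theorem box_shift' {γ : Type} [Fintype γ] [DecidableEq γ] (M : ℕ) (hM : 0 < M) (g : γ → K) (i : γ)
    (E : K → Prop) :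
    M * cnt (fun a : γ → Fin M => E (boxPt M g a - g i)) ≤
      M * cnt (fun a : γ → Fin M => E (boxPt M g a)) +
        Fintype.card (γ → Fin M) := by
  have h := box_shift M hM g i (fun z => ¬ E z)
  have h1 := cnt_add_not (fun a : γ → Fin M => E (boxPt M g a))
  have h2 := cnt_add_not (fun a : γ → Fin M => E (boxPt M g a - g i))
  have h3 : M * cnt (fun a : γ → Fin M => E (boxPt M g a)) +
      M * cnt (fun a : γ → Fin M => ¬ E (boxPt M g a)) =
      M * Fintype.card (γ → Fin M) := by rw [← mul_add, h1]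
  have h4 : M * cnt (fun a : γ → Fin M => E (boxPt M g a - g i)) +
      M * cnt (fun a : γ → Fin M => ¬ E (boxPt M g a - g i)) =
      M * Fintype.card (γ → Fin M) := by rw [← mul_add, h2]
  omega

end Box

/-- Key claim: NIP gives an almost translation-invariant point. -/
theorem claimA {K : Type} [Field K] [Infinite K] (P : K → K → Prop) (k : ℕ)
    (hVC : NoShatter (fun (j : K × K × K) (y : K) => P j.2.2 (j.1 * y + j.2.1)) k)
    (T U : Finset K) : ∃ x : K, ∀ t ∈ T, ∀ u ∈ U, (P t x ↔ P t (x + u)) := by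
  classical
  by_contra hcon
  push Not at hcon
  set S : K × K × K → K → Prop := fun j y => P j.2.2 (j.1 * y + j.2.1) with hS
  have hT : T.Nonempty := by
    obtain ⟨t, ht, _⟩ := hcon 0
    exact ⟨t, ht⟩
  have hU : U.Nonempty := by
    obtain ⟨t, ht, u, hu, _⟩ := hcon 0
    exact ⟨u, hu⟩
  obtain ⟨k₀, hk₀⟩ : ∃ k₀ : ℕ, k₀ = (T ×ˢ U).card := ⟨_, rfl⟩
  have hk₀pos : 0 < k₀ := by rw [hk₀]; exact Finset.card_pos.2 (hT.product hU)
  obtain ⟨q, hq⟩ : ∃ q : ℕ, q = 12 * k₀ := ⟨_, rfl⟩
  have hqpos : 0 < q := by omega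
  obtain ⟨N, hN0, hN⟩ := colouring k q hqpos
  have : NeZero N := ⟨hN0.ne'⟩
  -- the finite set of `W`s
  obtain ⟨r, hr⟩ : ∃ r : ℕ, r = Fintype.card (Fin N × U → Fin N) + 1 := ⟨_, rfl⟩
  obtain ⟨W, hW⟩ : ∃ W : Fin r → K, Function.Injective W := by
    obtain ⟨A, hA⟩ := Infinite.exists_subset_card_eq K r
    exact ⟨fun i => (A.equivFin.symm (Fin.cast hA.symm i) : K), fun i j hij => by
      have := Subtype.ext hij
      simpa using this⟩
  have hM : 0 < q := by omega
  have : Nonempty (Fin q) := ⟨⟨0, hM⟩⟩
  set g : Fin r × U → K := fun p => W p.1 * p.2 with hg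
  set pt : (Fin r × U → Fin q) → K := boxPt q g with hpt
  obtain ⟨n, hn⟩ : ∃ n : ℕ, n = Fintype.card (Fin r × U → Fin q) := ⟨_, rfl⟩
  have hnpos : 0 < n := by rw [hn]; exact Fintype.card_pos
  obtain ⟨C, hC⟩ := hN S pt hVC
  rw [← hn] at hC
  -- representatives of the colours
  have hrep : ∃ rep : Fin N → K × K × K, ∀ s : K × K × K, C (rep (C s)) = C s := by
    refine ⟨fun c => if h : ∃ s, C s = c then h.choose else (0, 0, 0), ?_⟩
    intro s
    have h : ∃ s', C s' = C s := ⟨s, rfl⟩
    simp only [h, dite_true]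
    exact h.choose_spec
  obtain ⟨rep, hrep⟩ := hrep
  -- second colouring
  set col2 : Fin r → (Fin N × U → Fin N) := fun i cu =>
    C ((rep cu.1).1, (rep cu.1).2.1 - (rep cu.1).1 * (W i * cu.2), (rep cu.1).2.2) with hcol2
  obtain ⟨i, j, hij, hcolij⟩ : ∃ i j : Fin r, i ≠ j ∧ col2 i = col2 j := by
    apply Fintype.exists_ne_map_eq_of_card_lt
    rw [Fintype.card_fin, hr]; omega
  -- the scaling factor
  have hlam0 : W i - W j ≠ 0 := sub_ne_zero.2 (fun h => hij (hW h))
  set lam : K := W i - W j with hlam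
  set ν : K := lam⁻¹ with hν
  have hνlam : ν * lam = 1 := inv_mul_cancel₀ hlam0
  -- pigeonhole on (t, u)
  have hpig : ∃ tu ∈ T ×ˢ U, n ≤ k₀ *
      cnt (fun a => ¬ (P tu.1 (ν * pt a) ↔ P tu.1 (ν * (pt a + lam * tu.2)))) := by
    by_contra hno
    simp only [not_exists, not_and, not_le] at hno
    have h1 : n ≤ ∑ tu ∈ T ×ˢ U,
        cnt (fun a => ¬ (P tu.1 (ν * pt a) ↔ P tu.1 (ν * (pt a + lam * tu.2)))) := by
      refine le_trans ?_ (cnt_exists_le _ _)
      rw [cnt_true, hn]
      intro a
      obtain ⟨t, ht, u, hu, h⟩ := hcon (ν * pt a)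
      refine ⟨(t, u), Finset.mem_product.2 ⟨ht, hu⟩, ?_⟩
      simp only
      rw [mul_add, ← mul_assoc, hνlam, one_mul]
      tauto
    have h2 : k₀ * n < k₀ * n := by
      calc k₀ * n ≤ k₀ * ∑ tu ∈ T ×ˢ U,
          cnt (fun a => ¬ (P tu.1 (ν * pt a) ↔ P tu.1 (ν * (pt a + lam * tu.2)))) :=
            Nat.mul_le_mul_left _ h1
        _ = ∑ tu ∈ T ×ˢ U, k₀ *
          cnt (fun a => ¬ (P tu.1 (ν * pt a) ↔ P tu.1 (ν * (pt a + lam * tu.2)))) := by
            rw [Finset.mul_sum]
        _ < ∑ tu ∈ T ×ˢ U, n := Finset.sum_lt_sum_of_nonempty (hT.product hU) hno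
        _ = k₀ * n := by rw [Finset.sum_const, smul_eq_mul, hk₀]
    exact lt_irrefl _ h2
  obtain ⟨⟨t, u⟩, htu, hbig⟩ := hpig
  obtain ⟨ht, hu⟩ := Finset.mem_product.1 htu
  simp only at ht hu hbig
  -- the generators
  set gi : Fin r × U := (i, ⟨u, hu⟩) with hgi
  set gj : Fin r × U := (j, ⟨u, hu⟩) with hgj
  have hggi : g gi = W i * u := rfl
  have hggj : g gj = W j * u := rfl
  -- lower bound for the distance
  have hlow := box_shift q hM g gi (fun z => ¬ (P t (ν * z) ↔ P t (ν * (z + lam * u))))
  rw [← hn] at hlow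
  set c : Fin N := C (ν, 0, t) with hc
  have hclose : q * dist S pt (ν, 0, t) (rep c) < 2 * n := hC _ _ (hrep _).symm
  -- translated closeness
  have hup_i := box_shift' q hM g gi (fun z => ¬ (S (ν, 0, t) z ↔ S (rep c) z))
  have hup_j := box_shift' q hM g gj (fun z => ¬ (S (ν, 0, t) z ↔ S (rep c) z))
  rw [← hn] at hup_i hup_j
  have hmid : q * dist S pt ((rep c).1, (rep c).2.1 - (rep c).1 * (W i * u), (rep c).2.2)
      ((rep c).1, (rep c).2.1 - (rep c).1 * (W j * u), (rep c).2.2) < 2 * n := by
    apply hC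
    have := congrFun hcolij (c, ⟨u, hu⟩)
    exact this
  -- abbreviations
  set A0 := cnt (fun a : Fin r × U → Fin q => ¬ (P t (ν * (boxPt q g a - g gi)) ↔
    P t (ν * (boxPt q g a - g gi + lam * u)))) with hA0
  set B0 := cnt (fun a : Fin r × U → Fin q => ¬ (P t (ν * (boxPt q g a)) ↔
    P t (ν * (boxPt q g a + lam * u)))) with hB0
  set Di := cnt (fun a : Fin r × U → Fin q => ¬ (S (ν, 0, t) (boxPt q g a - g gi) ↔
    S (rep c) (boxPt q g a - g gi))) with hDi
  set Dj := cnt (fun a : Fin r × U → Fin q => ¬ (S (ν, 0, t) (boxPt q g a - g gj) ↔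
    S (rep c) (boxPt q g a - g gj))) with hDj
  set D0 := cnt (fun a : Fin r × U → Fin q => ¬ (S (ν, 0, t) (boxPt q g a) ↔
    S (rep c) (boxPt q g a))) with hD0
  have hD0' : D0 = dist S pt (ν, 0, t) (rep c) := by
    rw [hD0, dist]
  set Dm := dist S pt ((rep c).1, (rep c).2.1 - (rep c).1 * (W i * u), (rep c).2.2)
      ((rep c).1, (rep c).2.1 - (rep c).1 * (W j * u), (rep c).2.2) with hDm
  -- triangle inequality
  have htri : A0 ≤ Di + Dm + Dj := by
    rw [hA0, hDi, hDm, hDj, dist]
    refine le_trans (cnt_mono (fun a ha => ?_)) (le_trans (cnt_or_le _ _)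
      (Nat.add_le_add_right (cnt_or_le _ _) _))
    revert ha
    simp only [hpt]
    have e1 : ν * (boxPt q g a - g gi + lam * u) = ν * (boxPt q g a - g gj) := by
      rw [hggi, hggj, hlam]; ring
    have e2 : S (ν, 0, t) (boxPt q g a - g gi) = P t (ν * (boxPt q g a - g gi)) := by
      simp only [hS, add_zero]
    have e3 : S (ν, 0, t) (boxPt q g a - g gj) = P t (ν * (boxPt q g a - g gj)) := by
      simp only [hS, add_zero]
    have e4 : S (rep c) (boxPt q g a - g gi) =
        S ((rep c).1, (rep c).2.1 - (rep c).1 * (W i * u), (rep c).2.2) (boxPt q g a) := by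
      simp only [hS, hggi]
      congr 1; ring
    have e5 : S (rep c) (boxPt q g a - g gj) =
        S ((rep c).1, (rep c).2.1 - (rep c).1 * (W j * u), (rep c).2.2) (boxPt q g a) := by
      simp only [hS, hggj]
      congr 1; ring
    rw [e1, e2, e3, e4, e5]
    tauto
  -- final arithmetic, with q = 12 k₀
  have h1 : n ≤ k₀ * B0 := hbig
  have h2 : q * B0 ≤ q * A0 + n := hlow
  have h3 : q * Di ≤ q * D0 + n := hup_i
  have h4 : q * Dj ≤ q * D0 + n := hup_j
  have h5 : q * D0 < 2 * n := by rw [hD0']; exact hclose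
  have h6 : q * Dm < 2 * n := hmid
  have h7 : 12 * n ≤ q * B0 := by rw [hq]; nlinarith
  have h8 : q * A0 ≤ q * Di + q * Dm + q * Dj := by
    rw [← mul_add, ← mul_add]; exact Nat.mul_le_mul_left _ htri
  omega

end Pool.Agent.Work.MP_e693fe_lc
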