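import Mathlib
import Pool.Agent.Work.MP_e693fe_lc.ClaimA

set_option autoImplicit false

namespace Pool.Agent.Work.MP_e693fe_lc

open Finset

/-- The `floor pattern` predicate: the floor of `x` in `J'` already lies in `J`. -/
def FloorSame {K Λ : Type*} [LinearOrder Λ] (key : K → Λ) (J J' : K → Prop) (x : K) : Prop :=
  ∀ y, J' y → key y ≤ key x → ∃ y', J y' ∧ key y ≤ key y' ∧ key y' ≤ key x

/-- next element of a finite set above a given key. -/
theorem exists_next {K Λ : Type*} [LinearOrder Λ] (key : K → Λ)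
    (J : Finset K) (u m : K) (hm : m ∈ J) (hum : key u < key m) :
    ∃ v ∈ J, key u < key v ∧ key v ≤ key m ∧ ∀ y ∈ J, ¬ (key u < key y ∧ key y < key v) := by
  classical
  have hne : (J.filter (fun y => key u < key y)).Nonempty :=
    ⟨m, Finset.mem_filter.2 ⟨hm, hum⟩⟩
  obtain ⟨v, hv, hmin⟩ := Finset.exists_min_image _ key hne
  rw [Finset.mem_filter] at hv
  refine ⟨v, hv.1, hv.2, hmin m (Finset.mem_filter.2 ⟨hm, hum⟩), ?_⟩
  rintro y hy ⟨h1, h2⟩
  exact absurd (hmin y (Finset.mem_filter.2 ⟨hy, h1⟩)) (not_le.2 h2)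

theorem floors_aux {K Λ : Type*} [LinearOrder Λ] (key : K → Λ)
    (J : ℕ → Finset K) (hJ : ∀ i, J i ⊆ J (i + 1)) (S : ℕ → Prop) (n : ℕ) :
    ∀ i, (∀ l, l < n → ∀ u ∈ J (i + l), ∀ u' ∈ J (i + l), key u < key u' →
        ∃ m ∈ J (i + l + 1), key u < key m ∧ key m < key u') →
      ∀ u ∈ J i, ∀ u' ∈ J i, key u < key u' → (∀ y ∈ J i, ¬ (key u < key y ∧ key y < key u')) →
      ∃ x, key u ≤ key x ∧ key x < key u' ∧
        ∀ l, l < n → (S (i + l) ↔ FloorSame key (· ∈ J (i + l)) (· ∈ J (i + l + 1)) x) := by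
  induction n with
  | zero =>
    intro i _ u hu u' hu' huu' _
    exact ⟨u, le_rfl, huu', fun l hl => absurd hl (Nat.not_lt_zero _)⟩
  | succ n ih =>
    intro i hden u hu u' hu' huu' hcons
    -- the next interval
    obtain ⟨m, hm, hum, hmu'⟩ := hden 0 (Nat.succ_pos _) u hu u' hu' huu'
    simp only [add_zero] at hm
    have hden' : ∀ l, l < n → ∀ u ∈ J (i + 1 + l), ∀ u' ∈ J (i + 1 + l), key u < key u' →
        ∃ m ∈ J (i + 1 + l + 1), key u < key m ∧ key m < key u' := by
      intro l hl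
      have := hden (l + 1) (Nat.succ_lt_succ hl)
      have e : i + (l + 1) = i + 1 + l := by ring
      rw [e] at this
      exact this
    obtain ⟨v, hv, huv, hvm, hvcons⟩ := exists_next key (J (i + 1)) u m hm hum
    by_cases hS : S i
    · obtain ⟨x, hx1, hx2, hx3⟩ := ih (i + 1) hden' u (hJ i hu) v hv huv hvcons
      refine ⟨x, hx1, hx2.trans (lt_of_le_of_lt hvm hmu'), ?_⟩
      intro l hl
      rcases l with _ | l
      · simp only [add_zero]
        refine iff_of_true hS ?_
        intro y hy hyx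
        refine ⟨u, hu, ?_, hx1⟩
        by_contra hlt
        push Not at hlt
        exact hvcons y hy ⟨hlt, lt_of_le_of_lt hyx hx2⟩
      · have := hx3 l (Nat.lt_of_succ_lt_succ hl)
        have e : i + 1 + l = i + (l + 1) := by ring
        rw [e] at this
        exact this
    · obtain ⟨v', hv', hvv', hv'u', hv'cons⟩ := exists_next key (J (i + 1)) v u' (hJ i hu')
        (lt_of_le_of_lt hvm hmu')
      obtain ⟨x, hx1, hx2, hx3⟩ := ih (i + 1) hden' v hv v' hv' hvv' hv'cons
      refine ⟨x, (huv.trans_le hx1).le, hx2.trans_le hv'u', ?_⟩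
      intro l hl
      rcases l with _ | l
      · simp only [add_zero]
        refine iff_of_false hS ?_
        intro hF
        obtain ⟨y', hy', h1, h2⟩ := hF v hv hx1
        exact hcons y' hy' ⟨huv.trans_le h1, lt_of_le_of_lt h2 (hx2.trans_le hv'u')⟩
      · have := hx3 l (Nat.lt_of_succ_lt_succ hl)
        have e : i + 1 + l = i + (l + 1) := by ring
        rw [e] at this
        exact this

theorem floors {K Λ : Type*} [LinearOrder Λ] (key : K → Λ)
    (J : ℕ → Finset K) (hJ : ∀ i, J i ⊆ J (i + 1)) (S : ℕ → Prop) (n : ℕ)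
    (hden : ∀ i, i < n → ∀ u ∈ J i, ∀ u' ∈ J i, key u < key u' →
        ∃ m ∈ J (i + 1), key u < key m ∧ key m < key u')
    (h0 : ∃ u ∈ J 0, ∃ u' ∈ J 0, key u < key u') :
    ∃ x, ∀ i, i < n → (S i ↔ FloorSame key (· ∈ J i) (· ∈ J (i + 1)) x) := by
  obtain ⟨u, hu, u', hu', huu'⟩ := h0
  obtain ⟨v, hv, huv, hvu', hvcons⟩ := exists_next key (J 0) u u' hu' huu'
  obtain ⟨x, _, _, hx⟩ := floors_aux key J hJ S n 0 (by
    intro l hl
    simpa using hden l hl) u hu v hv huv hvcons
  exact ⟨x, fun i hi => by simpa using hx i hi⟩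

/-- Main combinatorial theorem. `K` an infinite field, `key : K → Λ` an injection to a linear
order, `I` an increasing exhausting sequence of finite subsets. If the family of sets
`{y : key (l y + w) < key (l y + w + t)}` is of finite VC dimension, then the family of floor
patterns shatters arbitrarily large sets. -/
theorem floors_shatter {K Λ : Type} [Field K] [Infinite K] [LinearOrder Λ] (key : K → Λ)
    (hkey : Function.Injective key) (I : ℕ → Finset K) (hI : Monotone I) (hIall : ∀ x, ∃ a, x ∈ I a)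
    (k : ℕ) (hVC : NoShatter (fun (j : K × K × K) (y : K) =>
      key (j.1 * y + j.2.1) < key (j.1 * y + j.2.1 + j.2.2)) k) (n : ℕ) :
    ∃ A : Finset (ℕ × ℕ), A.card = n ∧ ∀ B ⊆ A, ∃ (x c : K), ∀ ab ∈ A,
      (ab ∈ B ↔ FloorSame (fun y => key (c + y)) (· ∈ I ab.1) (· ∈ I ab.2) x) := by
  classical
  have hclaim := claimA (fun t x => key x < key (x + t)) k hVC
  -- characteristic is not two
  have h2 : (2 : K) ≠ 0 := by
    intro h2
    obtain ⟨x, hx⟩ := hclaim {1} {1}
    have h := hx 1 (by simp) 1 (by simp)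
    have e : x + 1 + 1 = x := by rw [add_assoc, one_add_one_eq_two, h2, add_zero]
    rw [e] at h
    have hne : key x ≠ key (x + 1) := fun he => by
      have := hkey he
      simp at this
    rcases lt_or_gt_of_ne hne with h3 | h3
    · exact absurd (h.1 h3) (not_lt.2 h3.le)
    · exact absurd (h.2 h3) (not_lt.2 h3.le)
  -- every finite set is contained in some `I a`
  have hfin : ∀ F : Finset K, ∃ a, F ⊆ I a := by
    intro F
    induction F using Finset.induction_on with
    | empty => exact ⟨0, Finset.empty_subset _⟩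
    | insert x F _ ih =>
      obtain ⟨a, ha⟩ := ih
      obtain ⟨b, hb⟩ := hIall x
      refine ⟨max a b, Finset.insert_subset (hI (le_max_right _ _) hb) (ha.trans (hI (le_max_left _ _)))⟩
  -- midpoints
  set mid : Finset K → Finset K := fun F => (F ×ˢ F).image (fun p => (p.1 + p.2) / 2) with hmid
  have hnext : ∀ a, ∃ b, a < b ∧ mid (I a) ⊆ I b := by
    intro a
    obtain ⟨b, hb⟩ := hfin (mid (I a))
    exact ⟨max b (a + 1), lt_of_lt_of_le (Nat.lt_succ_self a) (le_max_right _ _),
      hb.trans (hI (le_max_left _ _))⟩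
  choose nx hnx1 hnx2 using hnext
  obtain ⟨a0, ha0⟩ := hfin {0, 1}
  set s : ℕ → ℕ := fun i => nx^[i] a0 with hs
  have hs0 : s 0 = a0 := rfl
  have hsucc : ∀ i, s (i + 1) = nx (s i) := by
    intro i
    simp only [hs, Function.iterate_succ_apply']
  have hmono : StrictMono s := strictMono_nat_of_lt_succ (fun i => by rw [hsucc]; exact hnx1 _)
  refine ⟨(Finset.range n).image (fun i => (s i, s (i + 1))), ?_, ?_⟩
  · rw [Finset.card_image_of_injective, Finset.card_range]
    intro i j hij
    exact hmono.injective (Prod.ext_iff.1 hij).1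
  intro B hB
  -- choose `c`
  set F := I (s n) with hF
  set H : Finset K := (F ×ˢ F).image (fun p => (p.2 - p.1) / 2) with hH
  set U : Finset K := F ∪ ((F ×ˢ H).image (fun p => p.1 + p.2)) with hU
  obtain ⟨c, hc⟩ := hclaim H U
  have hdens : ∀ i, i < n → ∀ u ∈ I (s i), ∀ u' ∈ I (s i), key (c + u) < key (c + u') →
      ∃ m ∈ I (s (i + 1)), key (c + u) < key (c + m) ∧ key (c + m) < key (c + u') := by
    intro i hi u hu u' hu' huu'
    have hsub : I (s i) ⊆ F := hI (hmono.monotone hi.le)
    refine ⟨(u + u') / 2, ?_, ?_⟩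
    · rw [hsucc]
      apply hnx2
      rw [hmid]
      exact Finset.mem_image.2 ⟨(u, u'), Finset.mem_product.2 ⟨hu, hu'⟩, rfl⟩
    · set h : K := (u' - u) / 2 with hh
      have hhH : h ∈ H := Finset.mem_image.2 ⟨(u, u'), Finset.mem_product.2 ⟨hsub hu, hsub hu'⟩, rfl⟩
      have e1 : c + (u + u') / 2 = c + u + h := by rw [hh]; field_simp; ring
      have e2 : c + u' = c + (u + h) + h := by rw [hh]; field_simp; ring
      have e3 : c + u + h = c + (u + h) := by ring
      have t1 := hc h hhH u (Finset.mem_union_left _ (hsub hu))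
      have t2 := hc h hhH (u + h) (Finset.mem_union_right _
        (Finset.mem_image.2 ⟨(u, h), Finset.mem_product.2 ⟨hsub hu, hhH⟩, rfl⟩))
      rw [e1]
      rw [e2] at huu' ⊢
      rw [e3] at t1 ⊢
      have t3 := t1.symm.trans t2
      -- key (c+u) < key (c+(u+h)) ↔ key (c+(u+h)) < key (c+(u+h)+h)
      by_cases hlt : key (c + u) < key (c + (u + h))
      · exact ⟨hlt, t3.1 hlt⟩
      · exfalso
        have hlt2 : ¬ key (c + (u + h)) < key (c + (u + h) + h) := fun hx => hlt (t3.2 hx)
        push Not at hlt hlt2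
        exact absurd huu' (not_lt.2 (hlt2.trans hlt))
  have h0 : ∃ u ∈ I (s 0), ∃ u' ∈ I (s 0), key (c + u) < key (c + u') := by
    have h0' : (0 : K) ∈ I (s 0) := ha0 (by simp)
    have h1' : (1 : K) ∈ I (s 0) := ha0 (by simp)
    have hne : key (c + 0) ≠ key (c + 1) := fun he => by
      have := hkey he
      simp at this
    rcases lt_or_gt_of_ne hne with h3 | h3
    · exact ⟨0, h0', 1, h1', h3⟩
    · exact ⟨1, h1', 0, h0', h3⟩
  obtain ⟨x, hx⟩ := floors (fun y => key (c + y)) (fun i => I (s i))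
    (fun i => hI (hmono (Nat.lt_succ_self i)).le) (fun i => (s i, s (i + 1)) ∈ B) n hdens h0
  refine ⟨x, c, ?_⟩
  intro ab hab
  obtain ⟨i, hi, rfl⟩ := Finset.mem_image.1 hab
  exact hx i (Finset.mem_range.1 hi)

end Pool.Agent.Work.MP_e693fe_lc
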