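import Mathlib
import Pool.Agent.Work.MP_e693fe_lc.Floors

set_option autoImplicit false

namespace Pool.Agent.Work.MP_e693fe_lc

open FirstOrder FirstOrder.Language

section Df

variable (L : FirstOrder.Language.{0, 0}) [L.Structure ℕ]

/-- definable predicates on assignments -/
def Df {α : Type} (P : (α → ℕ) → Prop) : Prop :=
  ∃ φ : L.Formula α, ∀ v, φ.Realize v ↔ P v

variable {L}
variable {α β γ : Type} {P Q : (α → ℕ) → Prop}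

theorem Df.of (φ : L.Formula α) : Df L (fun v => φ.Realize v) := ⟨φ, fun _ => Iff.rfl⟩

theorem Df.congr (h : Df L P) (e : ∀ v, P v ↔ Q v) : Df L Q := by
  obtain ⟨φ, hφ⟩ := h
  exact ⟨φ, fun v => (hφ v).trans (e v)⟩

theorem Df.not (h : Df L P) : Df L (fun v => ¬ P v) := by
  obtain ⟨φ, hφ⟩ := h
  exact ⟨φ.not, fun v => by rw [Formula.realize_not, hφ]⟩

theorem Df.and (h : Df L P) (h' : Df L Q) : Df L (fun v => P v ∧ Q v) := by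
  obtain ⟨φ, hφ⟩ := h
  obtain ⟨ψ, hψ⟩ := h'
  exact ⟨φ ⊓ ψ, fun v => by rw [Formula.realize_inf, hφ, hψ]⟩

theorem Df.or (h : Df L P) (h' : Df L Q) : Df L (fun v => P v ∨ Q v) := by
  obtain ⟨φ, hφ⟩ := h
  obtain ⟨ψ, hψ⟩ := h'
  exact ⟨φ ⊔ ψ, fun v => by rw [Formula.realize_sup, hφ, hψ]⟩

theorem Df.imp (h : Df L P) (h' : Df L Q) : Df L (fun v => P v → Q v) := by
  obtain ⟨φ, hφ⟩ := h
  obtain ⟨ψ, hψ⟩ := h'
  exact ⟨φ.imp ψ, fun v => by rw [Formula.realize_imp, hφ, hψ]⟩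

theorem Df.relabel (h : Df L P) (g : α → β) : Df L (fun v : β → ℕ => P (v ∘ g)) := by
  obtain ⟨φ, hφ⟩ := h
  exact ⟨φ.relabel g, fun v => by rw [Formula.realize_relabel, hφ]⟩

theorem Df.ex [Finite γ] {R : (γ → ℕ) → (α → ℕ) → Prop}
    (h : Df L (fun v : α ⊕ γ → ℕ => R (v ∘ Sum.inr) (v ∘ Sum.inl))) :
    Df L (fun v : α → ℕ => ∃ w, R w v) := by
  obtain ⟨φ, hφ⟩ := h
  exact ⟨φ.iExs γ, fun v => by
    rw [Formula.realize_iExs]
    simp only [hφ, Sum.elim_comp_inl, Sum.elim_comp_inr]⟩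

theorem Df.all [Finite γ] {R : (γ → ℕ) → (α → ℕ) → Prop}
    (h : Df L (fun v : α ⊕ γ → ℕ => R (v ∘ Sum.inr) (v ∘ Sum.inl))) :
    Df L (fun v : α → ℕ => ∀ w, R w v) := by
  obtain ⟨φ, hφ⟩ := h
  exact ⟨φ.iAlls γ, fun v => by
    rw [Formula.realize_iAlls]
    simp only [hφ, Sum.elim_comp_inl, Sum.elim_comp_inr]⟩

theorem Df.finEx [Finite γ] {R : γ → (α → ℕ) → Prop} (h : ∀ i, Df L (R i)) :
    Df L (fun v => ∃ i, R i v) := by
  choose φ hφ using h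
  exact ⟨Formula.iSup φ, fun v => by
    rw [Formula.realize_iSup]; exact exists_congr (fun i => hφ i v)⟩

theorem Df.finAll [Finite γ] {R : γ → (α → ℕ) → Prop} (h : ∀ i, Df L (R i)) :
    Df L (fun v => ∀ i, R i v) := by
  choose φ hφ using h
  exact ⟨Formula.iInf φ, fun v => by
    rw [Formula.realize_iInf]; exact forall_congr' (fun i => hφ i v)⟩

theorem Df.const (p : Prop) : Df L (fun _ : α → ℕ => p) := by
  by_cases hp : p
  · exact ⟨⊤, fun v => by simp [hp]⟩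
  · exact ⟨⊥, fun v => by simp [hp]⟩

theorem Df.lt (hlt : ∃ φ : L.Formula (Fin 2), ∀ v : Fin 2 → ℕ, φ.Realize v ↔ v 0 < v 1) (a b : α) :
    Df L (fun v => v a < v b) := by
  obtain ⟨φ, hφ⟩ := hlt
  refine ((Df.of φ).relabel ![a, b]).congr (fun v => ?_)
  rw [hφ]; simp

theorem Df.le (hlt : ∃ φ : L.Formula (Fin 2), ∀ v : Fin 2 → ℕ, φ.Realize v ↔ v 0 < v 1) (a b : α) :
    Df L (fun v => v a ≤ v b) :=
  (Df.lt hlt b a).not.congr (fun _ => not_lt)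

theorem Df.eq (a b : α) : Df L (fun v => v a = v b) :=
  ⟨(Term.var a).equal (Term.var b), fun v => by simp [Formula.realize_equal]⟩

/-- strict lexicographic comparison of tuples -/
def LexLt {n : ℕ} (a b : Fin n → ℕ) : Prop := ∃ i, (∀ j, j < i → a j = b j) ∧ a i < b i

theorem Df.lexLt (hlt : ∃ φ : L.Formula (Fin 2), ∀ v : Fin 2 → ℕ, φ.Realize v ↔ v 0 < v 1)
    {n : ℕ} (g h : Fin n → α) : Df L (fun v => LexLt (v ∘ g) (v ∘ h)) := by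
  unfold LexLt
  refine Df.finEx (fun i => (Df.finAll (fun j => ?_)).and (Df.lt hlt (g i) (h i)))
  exact (Df.const (j < i)).imp (Df.eq (g j) (h j))

end Df

/-- Data of an interpretation of `K` in a structure on `ℕ` with definable order. -/
structure Intp (L : FirstOrder.Language.{0, 0}) [L.Structure ℕ] (K : Type) [Field K] where
  hlt : ∃ φ : L.Formula (Fin 2), ∀ v : Fin 2 → ℕ, φ.Realize v ↔ v 0 < v 1
  n : ℕ
  D : L.Formula (Fin n)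
  f : (Fin n → ℕ) → K
  surj : ∀ x : K, ∃ a : Fin n → ℕ, D.Realize a ∧ f a = x
  hE : ∃ E : L.Formula (Fin 2 × Fin n), ∀ a b : Fin n → ℕ, D.Realize a → D.Realize b →
      (E.Realize (fun p => ![a, b] p.1 p.2) ↔ f a = f b)
  hAd : ∃ Ad : L.Formula (Fin 3 × Fin n), ∀ a b c : Fin n → ℕ,
      D.Realize a → D.Realize b → D.Realize c →
        (Ad.Realize (fun p => ![a, b, c] p.1 p.2) ↔ f a + f b = f c)
  hMu : ∃ Mu : L.Formula (Fin 3 × Fin n), ∀ a b c : Fin n → ℕ,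
      D.Realize a → D.Realize b → D.Realize c →
        (Mu.Realize (fun p => ![a, b, c] p.1 p.2) ↔ f a * f b = f c)

namespace Intp

variable {L : FirstOrder.Language.{0, 0}} [L.Structure ℕ] {K : Type} [Field K] (𝓘 : Intp L K)

/-- Definable predicates with variables from `K` (indexed by `ι`) and from `ℕ` (indexed by `κ`). -/
def KDf {ι κ : Type} (P : (ι → K) → (κ → ℕ) → Prop) : Prop :=
  ∃ φ : L.Formula ((ι × Fin 𝓘.n) ⊕ κ), ∀ (v : ι → Fin 𝓘.n → ℕ) (w : κ → ℕ),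
    (∀ i, 𝓘.D.Realize (v i)) →
      (φ.Realize (Sum.elim (fun p => v p.1 p.2) w) ↔ P (fun i => 𝓘.f (v i)) w)

variable {𝓘} {ι κ : Type} {P Q : (ι → K) → (κ → ℕ) → Prop}

theorem KDf.congr (h : 𝓘.KDf P) (e : ∀ x w, P x w ↔ Q x w) : 𝓘.KDf Q := by
  obtain ⟨φ, hφ⟩ := h
  exact ⟨φ, fun v w hv => (hφ v w hv).trans (e _ _)⟩

theorem KDf.and (h : 𝓘.KDf P) (h' : 𝓘.KDf Q) : 𝓘.KDf (fun x w => P x w ∧ Q x w) := by
  obtain ⟨φ, hφ⟩ := h
  obtain ⟨ψ, hψ⟩ := h'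
  exact ⟨φ ⊓ ψ, fun v w hv => by rw [Formula.realize_inf, hφ v w hv, hψ v w hv]⟩

theorem KDf.imp (h : 𝓘.KDf P) (h' : 𝓘.KDf Q) : 𝓘.KDf (fun x w => P x w → Q x w) := by
  obtain ⟨φ, hφ⟩ := h
  obtain ⟨ψ, hψ⟩ := h'
  exact ⟨φ.imp ψ, fun v w hv => by rw [Formula.realize_imp, hφ v w hv, hψ v w hv]⟩

theorem KDf.not (h : 𝓘.KDf P) : 𝓘.KDf (fun x w => ¬ P x w) := by
  obtain ⟨φ, hφ⟩ := h
  exact ⟨φ.not, fun v w hv => by rw [Formula.realize_not, hφ v w hv]⟩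

/-- From definability on assignments. -/
theorem KDf.ofDf (h : Df L (fun v : (ι × Fin 𝓘.n) ⊕ κ → ℕ =>
      (∀ i, 𝓘.D.Realize (fun j => v (Sum.inl (i, j)))) →
      P (fun i => 𝓘.f (fun j => v (Sum.inl (i, j)))) (fun k => v (Sum.inr k)))) : 𝓘.KDf P := by
  obtain ⟨φ, hφ⟩ := h
  refine ⟨φ, fun v w hv => ?_⟩
  rw [hφ]
  simp only [Sum.elim_inl, Sum.elim_inr]
  exact ⟨fun h => h hv, fun h _ => h⟩

theorem KDf.exK {R : K → (ι → K) → (κ → ℕ) → Prop}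
    (h : 𝓘.KDf (fun (x : Option ι → K) w => R (x none) (fun i => x (some i)) w)) :
    𝓘.KDf (fun x w => ∃ y, R y x w) := by
  obtain ⟨φ, hφ⟩ := h
  -- relabel to `((ι × Fin n) ⊕ κ) ⊕ Fin n`
  set g : (Option ι × Fin 𝓘.n) ⊕ κ → ((ι × Fin 𝓘.n) ⊕ κ) ⊕ Fin 𝓘.n := fun s =>
    match s with
    | Sum.inl (none, j) => Sum.inr j
    | Sum.inl (some i, j) => Sum.inl (Sum.inl (i, j))
    | Sum.inr k => Sum.inl (Sum.inr k) with hg
  refine ⟨((𝓘.D.relabel Sum.inr ⊓ φ.relabel g : L.Formula (((ι × Fin 𝓘.n) ⊕ κ) ⊕ Fin 𝓘.n))).iExs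
    (Fin 𝓘.n), ?_⟩
  intro v w hv
  rw [Formula.realize_iExs]
  have key : ∀ a : Fin 𝓘.n → ℕ, 𝓘.D.Realize a →
      ((φ.relabel g).Realize (Sum.elim (Sum.elim (fun p => v p.1 p.2) w) a) ↔
        R (𝓘.f a) (fun i => 𝓘.f (v i)) w) := by
    intro a ha
    rw [Formula.realize_relabel]
    have h1 := hφ (fun o => match o with | none => a | some i => v i) w (by
      intro o
      rcases o with _ | i
      · exact ha
      · exact hv i)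
    simp only at h1
    rw [← h1]
    have : (Sum.elim (Sum.elim (fun p : ι × Fin 𝓘.n => v p.1 p.2) w) a ∘ g) =
        (Sum.elim (fun p : Option ι × Fin 𝓘.n => (match p.1 with | none => a | some i => v i) p.2) w) := by
      funext s
      rcases s with ⟨_ | i, j⟩ | k <;> rfl
    rw [this]
  constructor
  · rintro ⟨a, ha⟩
    rw [Formula.realize_inf, Formula.realize_relabel] at ha
    obtain ⟨ha1, ha2⟩ := ha
    have ha1' : 𝓘.D.Realize a := by simpa [Sum.elim_comp_inr] using ha1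
    exact ⟨𝓘.f a, (key a ha1').1 ha2⟩
  · rintro ⟨y, hy⟩
    obtain ⟨a, ha, rfl⟩ := 𝓘.surj y
    refine ⟨a, ?_⟩
    rw [Formula.realize_inf, Formula.realize_relabel]
    exact ⟨by simpa [Sum.elim_comp_inr] using ha, (key a ha).2 hy⟩

theorem KDf.allK {R : K → (ι → K) → (κ → ℕ) → Prop}
    (h : 𝓘.KDf (fun (x : Option ι → K) w => R (x none) (fun i => x (some i)) w)) :
    𝓘.KDf (fun x w => ∀ y, R y x w) := by
  have h1 := (KDf.exK (R := fun y x w => ¬ R y x w) h.not).not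
  exact h1.congr (fun x w => by simp)

theorem KDf.eq (i j : ι) : 𝓘.KDf (fun (x : ι → K) (_ : κ → ℕ) => x i = x j) := by
  obtain ⟨E, hE⟩ := 𝓘.hE
  refine ⟨E.relabel (fun p => Sum.inl (![i, j] p.1, p.2)), fun v w hv => ?_⟩
  rw [Formula.realize_relabel]
  beta_reduce
  rw [← hE (v i) (v j) (hv i) (hv j)]
  have : (Sum.elim (fun p : ι × Fin 𝓘.n => v p.1 p.2) w ∘ fun p => Sum.inl (![i, j] p.1, p.2)) =
      (fun p : Fin 2 × Fin 𝓘.n => ![v i, v j] p.1 p.2) := by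
    funext p
    obtain ⟨a, b⟩ := p
    fin_cases a <;> rfl
  rw [this]

theorem KDf.add (i j k : ι) : 𝓘.KDf (fun (x : ι → K) (_ : κ → ℕ) => x i + x j = x k) := by
  obtain ⟨E, hE⟩ := 𝓘.hAd
  refine ⟨E.relabel (fun p => Sum.inl (![i, j, k] p.1, p.2)), fun v w hv => ?_⟩
  rw [Formula.realize_relabel]
  beta_reduce
  rw [← hE (v i) (v j) (v k) (hv i) (hv j) (hv k)]
  have : (Sum.elim (fun p : ι × Fin 𝓘.n => v p.1 p.2) w ∘ fun p => Sum.inl (![i, j, k] p.1, p.2)) =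
      (fun p : Fin 3 × Fin 𝓘.n => ![v i, v j, v k] p.1 p.2) := by
    funext p
    obtain ⟨a, b⟩ := p
    fin_cases a <;> rfl
  rw [this]

theorem KDf.mul (i j k : ι) : 𝓘.KDf (fun (x : ι → K) (_ : κ → ℕ) => x i * x j = x k) := by
  obtain ⟨E, hE⟩ := 𝓘.hMu
  refine ⟨E.relabel (fun p => Sum.inl (![i, j, k] p.1, p.2)), fun v w hv => ?_⟩
  rw [Formula.realize_relabel]
  beta_reduce
  rw [← hE (v i) (v j) (v k) (hv i) (hv j) (hv k)]
  have : (Sum.elim (fun p : ι × Fin 𝓘.n => v p.1 p.2) w ∘ fun p => Sum.inl (![i, j, k] p.1, p.2)) =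
      (fun p : Fin 3 × Fin 𝓘.n => ![v i, v j, v k] p.1 p.2) := by
    funext p
    obtain ⟨a, b⟩ := p
    fin_cases a <;> rfl
  rw [this]

variable (𝓘)

theorem exists_least (x : K) : ∃ a : Lex (Fin 𝓘.n → ℕ), (𝓘.D.Realize (ofLex a) ∧ 𝓘.f (ofLex a) = x) ∧
    ∀ b : Lex (Fin 𝓘.n → ℕ), 𝓘.D.Realize (ofLex b) → 𝓘.f (ofLex b) = x → a ≤ b := by
  set S : Set (Lex (Fin 𝓘.n → ℕ)) := {a | 𝓘.D.Realize (ofLex a) ∧ 𝓘.f (ofLex a) = x} with hS
  have hne : S.Nonempty := by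
    obtain ⟨a, ha⟩ := 𝓘.surj x
    exact ⟨toLex a, ha⟩
  have hwf : WellFounded ((· < ·) : Lex (Fin 𝓘.n → ℕ) → Lex (Fin 𝓘.n → ℕ) → Prop) :=
    IsWellFounded.wf
  refine ⟨hwf.min S hne, hwf.min_mem S hne, fun b hb1 hb2 => ?_⟩
  exact not_lt.1 (hwf.not_lt_min S (x := b) ⟨hb1, hb2⟩)

/-- The lexicographically least representative. -/
noncomputable def key (x : K) : Lex (Fin 𝓘.n → ℕ) := (𝓘.exists_least x).choose

theorem key_D (x : K) : 𝓘.D.Realize (ofLex (𝓘.key x)) := (𝓘.exists_least x).choose_spec.1.1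

theorem f_key (x : K) : 𝓘.f (ofLex (𝓘.key x)) = x := (𝓘.exists_least x).choose_spec.1.2

theorem key_le {x : K} {b : Lex (Fin 𝓘.n → ℕ)} (h1 : 𝓘.D.Realize (ofLex b))
    (h2 : 𝓘.f (ofLex b) = x) : 𝓘.key x ≤ b :=
  (𝓘.exists_least x).choose_spec.2 b h1 h2

theorem key_injective : Function.Injective 𝓘.key := by
  intro x y h
  rw [← 𝓘.f_key x, ← 𝓘.f_key y, h]

variable {𝓘}

theorem KDf.keyLe (i j : ι) :
    𝓘.KDf (fun (x : ι → K) (_ : κ → ℕ) => 𝓘.key (x i) ≤ 𝓘.key (x j)) := by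
  obtain ⟨E, hE⟩ := 𝓘.hE
  -- `∀ b ∈ D, f b = x j → ∃ a ∈ D, f a = x i ∧ ¬ LexLt b a`
  have hE' : ∀ {α : Type} (g h : Fin 𝓘.n → α), Df L (fun v : α → ℕ => E.Realize (fun p : Fin 2 × Fin 𝓘.n =>
      ![v ∘ g, v ∘ h] p.1 p.2)) := by
    intro α g h
    refine ((Df.of E).relabel (fun p : Fin 2 × Fin 𝓘.n => (![g, h] p.1 p.2 : α))).congr (fun v => ?_)
    have : (v ∘ fun p : Fin 2 × Fin 𝓘.n => (![g, h] p.1 p.2 : α)) =
        fun p : Fin 2 × Fin 𝓘.n => ![v ∘ g, v ∘ h] p.1 p.2 := by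
      funext p
      obtain ⟨a, b⟩ := p
      fin_cases a <;> rfl
    rw [this]
  have hmain : Df L (fun v : (ι × Fin 𝓘.n) ⊕ κ → ℕ =>
      ∀ b : Fin 𝓘.n → ℕ, (𝓘.D.Realize b ∧
        E.Realize (fun p : Fin 2 × Fin 𝓘.n => ![b, v ∘ (fun l => Sum.inl (j, l))] p.1 p.2)) →
        ∃ a : Fin 𝓘.n → ℕ, (𝓘.D.Realize a ∧
          E.Realize (fun p : Fin 2 × Fin 𝓘.n => ![a, v ∘ (fun l => Sum.inl (i, l))] p.1 p.2)) ∧
          ¬ LexLt b a) := by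
    apply Df.all
    refine Df.imp (Df.and ?_ ?_) ?_
    · exact (Df.of 𝓘.D).relabel Sum.inr
    · exact hE' Sum.inr (fun l => Sum.inl (Sum.inl (j, l)))
    · apply Df.ex
      refine Df.and (Df.and ?_ ?_) (Df.not ?_)
      · exact (Df.of 𝓘.D).relabel Sum.inr
      · exact hE' Sum.inr (fun l => Sum.inl (Sum.inl (Sum.inl (i, l))))
      · exact Df.lexLt 𝓘.hlt (fun l => Sum.inl (Sum.inr l)) Sum.inr
  obtain ⟨φ, hφ⟩ := hmain
  refine ⟨φ, fun v w hv => ?_⟩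
  rw [hφ]
  beta_reduce
  have e : ∀ i, (Sum.elim (fun p : ι × Fin 𝓘.n => v p.1 p.2) w ∘ fun l => Sum.inl (i, l)) = v i :=
    fun i => rfl
  rw [e, e]
  constructor
  · intro h
    obtain ⟨a, ⟨ha1, ha2⟩, ha3⟩ := h (ofLex (𝓘.key (𝓘.f (v j)))) ⟨𝓘.key_D _,
      (hE _ _ (𝓘.key_D _) (hv j)).2 (𝓘.f_key _)⟩
    have ha2' := (hE a (v i) ha1 (hv i)).1 ha2
    have h1 : 𝓘.key (𝓘.f (v i)) ≤ toLex a := 𝓘.key_le ha1 ha2'
    have h2 : toLex a ≤ 𝓘.key (𝓘.f (v j)) := not_lt.1 (fun hlt => ha3 hlt)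
    exact h1.trans h2
  · rintro h b ⟨hb1, hb2⟩
    have hb2' := (hE b (v j) hb1 (hv j)).1 hb2
    refine ⟨ofLex (𝓘.key (𝓘.f (v i))), ⟨𝓘.key_D _, (hE _ _ (𝓘.key_D _) (hv i)).2 (𝓘.f_key _)⟩, ?_⟩
    have h1 : 𝓘.key (𝓘.f (v j)) ≤ toLex b := 𝓘.key_le hb1 hb2'
    have h2 := not_lt.2 (h.trans h1)
    exact fun hlt => h2 hlt

variable (𝓘)

/-- `I a`: elements having a representative bounded by `a`. -/
noncomputable def I (a : ℕ) : Finset K := by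
  classical
  exact ((Fintype.piFinset (fun _ : Fin 𝓘.n => Finset.range (a + 1))).filter
    (fun v => 𝓘.D.Realize v)).image 𝓘.f

theorem mem_I (a : ℕ) (x : K) : x ∈ 𝓘.I a ↔ ∃ v : Fin 𝓘.n → ℕ, (∀ i, v i ≤ a) ∧ 𝓘.D.Realize v ∧
    𝓘.f v = x := by
  classical
  unfold I
  rw [Finset.mem_image]
  constructor
  · rintro ⟨v, hv, rfl⟩
    rw [Finset.mem_filter, Fintype.mem_piFinset] at hv
    exact ⟨v, fun i => Nat.lt_succ_iff.1 (Finset.mem_range.1 (hv.1 i)), hv.2, rfl⟩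
  · rintro ⟨v, hv1, hv2, rfl⟩
    refine ⟨v, ?_, rfl⟩
    rw [Finset.mem_filter, Fintype.mem_piFinset]
    exact ⟨fun i => Finset.mem_range.2 (Nat.lt_succ_iff.2 (hv1 i)), hv2⟩

theorem I_mono : Monotone 𝓘.I := by
  intro a b hab x hx
  rw [mem_I] at hx ⊢
  obtain ⟨v, hv1, hv2⟩ := hx
  exact ⟨v, fun i => (hv1 i).trans hab, hv2⟩

theorem I_all (x : K) : ∃ a, x ∈ 𝓘.I a := by
  obtain ⟨v, hv, hx⟩ := 𝓘.surj x
  refine ⟨∑ i, v i, (𝓘.mem_I _ _).2 ⟨v, fun i => ?_, hv, hx⟩⟩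
  exact Finset.single_le_sum (f := v) (fun _ _ => Nat.zero_le _) (Finset.mem_univ i)

variable {𝓘}

theorem KDf.memI (i : ι) (k : κ) : 𝓘.KDf (fun (x : ι → K) (w : κ → ℕ) => x i ∈ 𝓘.I (w k)) := by
  obtain ⟨E, hE⟩ := 𝓘.hE
  have hmain : Df L (fun v : (ι × Fin 𝓘.n) ⊕ κ → ℕ =>
      ∃ b : Fin 𝓘.n → ℕ, (∀ l, b l ≤ v (Sum.inr k)) ∧ (𝓘.D.Realize b ∧
        E.Realize (fun p : Fin 2 × Fin 𝓘.n => ![b, v ∘ (fun l => Sum.inl (i, l))] p.1 p.2))) := by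
    apply Df.ex
    refine Df.and (Df.finAll fun l => ?_) (Df.and ?_ ?_)
    · exact Df.le 𝓘.hlt (Sum.inr l) (Sum.inl (Sum.inr k))
    · exact (Df.of 𝓘.D).relabel Sum.inr
    · refine ((Df.of E).relabel (fun p : Fin 2 × Fin 𝓘.n =>
        (![Sum.inr, fun l => Sum.inl (Sum.inl (i, l))] p.1 p.2 : ((ι × Fin 𝓘.n) ⊕ κ) ⊕ Fin 𝓘.n))).congr
          (fun v => ?_)
      have : (v ∘ fun p : Fin 2 × Fin 𝓘.n => (![Sum.inr, fun l => Sum.inl (Sum.inl (i, l))] p.1 p.2 :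
          ((ι × Fin 𝓘.n) ⊕ κ) ⊕ Fin 𝓘.n)) =
          fun p : Fin 2 × Fin 𝓘.n => ![v ∘ Sum.inr, (v ∘ Sum.inl) ∘ fun l => Sum.inl (i, l)] p.1 p.2 := by
        funext p
        obtain ⟨a, b⟩ := p
        fin_cases a <;> rfl
      rw [this]
  obtain ⟨φ, hφ⟩ := hmain
  refine ⟨φ, fun v w hv => ?_⟩
  rw [hφ]
  beta_reduce
  rw [mem_I]
  have e : (Sum.elim (fun p : ι × Fin 𝓘.n => v p.1 p.2) w ∘ fun l => Sum.inl (i, l)) = v i := rfl
  rw [e]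
  constructor
  · rintro ⟨b, hb1, hb2, hb3⟩
    exact ⟨b, hb1, hb2, (hE b (v i) hb2 (hv i)).1 hb3⟩
  · rintro ⟨b, hb1, hb2, hb3⟩
    exact ⟨b, hb1, hb2, (hE b (v i) hb2 (hv i)).2 hb3⟩

end Intp

end Pool.Agent.Work.MP_e693fe_lc
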