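import Mathlib
import Pool.Agent.Work.MP_e693fe_lc.Defin

set_option autoImplicit false

namespace Pool.Agent.Work.MP_e693fe_lc

open FirstOrder FirstOrder.Language

/-- The NIP hypothesis of the frozen statement. -/
def NIPHyp (L : FirstOrder.Language.{0, 0}) [L.Structure ℕ] : Prop :=
  ∀ (n m : ℕ) (φ : L.Formula (Fin n ⊕ Fin m)), ∃ k : ℕ,
    ∀ A : Finset (Fin n → ℕ), A.card = k →
      ∃ B ⊆ A, ∀ b : Fin m → ℕ, ¬ (∀ a ∈ A, (a ∈ B ↔ φ.Realize (Sum.elim a b)))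

variable {L : FirstOrder.Language.{0, 0}} [L.Structure ℕ]

theorem nip_types (h : NIPHyp L) {α β : Type} [Fintype α] [Fintype β] (φ : L.Formula (α ⊕ β)) :
    ∃ k : ℕ, ∀ A : Finset (α → ℕ), A.card = k →
      ∃ B ⊆ A, ∀ b : β → ℕ, ¬ (∀ a ∈ A, (a ∈ B ↔ φ.Realize (Sum.elim a b))) := by
  classical
  set eα := Fintype.equivFin α
  set eβ := Fintype.equivFin β
  obtain ⟨k, hk⟩ := h _ _ (φ.relabel (Sum.map eα eβ))
  refine ⟨k, fun A hA => ?_⟩
  set F : (α → ℕ) ↪ (Fin (Fintype.card α) → ℕ) :=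
    ⟨fun a => a ∘ eα.symm, fun a b hab => by
      funext x
      have := congrFun hab (eα x)
      simpa using this⟩ with hF
  obtain ⟨B', hB'A, hB'⟩ := hk (A.map F) (by rw [Finset.card_map, hA])
  refine ⟨A.filter (fun a => F a ∈ B'), Finset.filter_subset _ _, fun b hb => ?_⟩
  apply hB' (b ∘ eβ.symm)
  intro a' ha'
  rw [Finset.mem_map] at ha'
  obtain ⟨a, ha, rfl⟩ := ha'
  have h1 := hb a ha
  rw [Finset.mem_filter] at h1
  rw [Formula.realize_relabel]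
  have e : (Sum.elim (F a) (b ∘ eβ.symm) ∘ Sum.map eα eβ) = Sum.elim a b := by
    funext s
    rcases s with x | y
    · show a (eα.symm (eα x)) = a x
      rw [Equiv.symm_apply_apply]
    · simp
  rw [e, ← h1]
  exact ⟨fun h => ⟨ha, h⟩, fun h => h.2⟩

namespace Intp

variable {K : Type} [Field K] (𝓘 : Intp L K)

theorem nip_K (h : NIPHyp L) {ι ι' κ κ' : Type} [Fintype ι] [Fintype ι'] [Fintype κ] [Fintype κ']
    (P : (ι ⊕ ι' → K) → (κ ⊕ κ' → ℕ) → Prop) (hP : 𝓘.KDf P) :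
    ∃ k : ℕ, ∀ A : Finset ((ι → K) × (κ → ℕ)), A.card = k → ∃ B ⊆ A, ∀ (b : ι' → K) (c : κ' → ℕ),
      ¬ (∀ a ∈ A, (a ∈ B ↔ P (Sum.elim a.1 b) (Sum.elim a.2 c))) := by
  classical
  obtain ⟨φ, hφ⟩ := hP
  set g : ((ι ⊕ ι') × Fin 𝓘.n) ⊕ (κ ⊕ κ') → ((ι × Fin 𝓘.n) ⊕ κ) ⊕ ((ι' × Fin 𝓘.n) ⊕ κ') := fun s =>
    match s with
    | Sum.inl (Sum.inl i, j) => Sum.inl (Sum.inl (i, j))
    | Sum.inl (Sum.inr i, j) => Sum.inr (Sum.inl (i, j))
    | Sum.inr (Sum.inl k) => Sum.inl (Sum.inr k)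
    | Sum.inr (Sum.inr k) => Sum.inr (Sum.inr k) with hg
  obtain ⟨k, hk⟩ := nip_types h (φ.relabel g)
  refine ⟨k, fun A hA => ?_⟩
  set F : ((ι → K) × (κ → ℕ)) ↪ (((ι × Fin 𝓘.n) ⊕ κ) → ℕ) :=
    ⟨fun xw => Sum.elim (fun p => ofLex (𝓘.key (xw.1 p.1)) p.2) xw.2, fun a b hab => by
      have h1 : a.1 = b.1 := by
        funext i
        apply 𝓘.key_injective
        apply ofLex.injective
        funext j
        exact congrFun hab (Sum.inl (i, j))
      have h2 : a.2 = b.2 := by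
        funext k
        exact congrFun hab (Sum.inr k)
      exact Prod.ext h1 h2⟩ with hF
  obtain ⟨B', hB'A, hB'⟩ := hk (A.map F) (by rw [Finset.card_map, hA])
  refine ⟨A.filter (fun a => F a ∈ B'), Finset.filter_subset _ _, fun b c hbc => ?_⟩
  apply hB' (Sum.elim (fun p => ofLex (𝓘.key (b p.1)) p.2) c)
  intro a' ha'
  rw [Finset.mem_map] at ha'
  obtain ⟨a, ha, rfl⟩ := ha'
  have h1 := hbc a ha
  rw [Finset.mem_filter] at h1
  rw [Formula.realize_relabel]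
  have h2 := hφ (fun s => ofLex (𝓘.key (Sum.elim a.1 b s))) (Sum.elim a.2 c) (fun s => 𝓘.key_D _)
  have e : (Sum.elim (F a) (Sum.elim (fun p : ι' × Fin 𝓘.n => ofLex (𝓘.key (b p.1)) p.2) c) ∘ g) =
      Sum.elim (fun p : (ι ⊕ ι') × Fin 𝓘.n => ofLex (𝓘.key (Sum.elim a.1 b p.1)) p.2)
        (Sum.elim a.2 c) := by
    funext s
    rcases s with ⟨i | i, j⟩ | k | k <;> rfl
  rw [e, h2]
  simp only [𝓘.f_key]
  rw [← h1]
  exact ⟨fun h => ⟨ha, h⟩, fun h => h.2⟩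

/-- The first definable family. -/
theorem kdf_one : 𝓘.KDf (fun (x : Unit ⊕ Fin 3 → K) (_ : Empty ⊕ Empty → ℕ) =>
    𝓘.key (x (Sum.inr 0) * x (Sum.inl ()) + x (Sum.inr 1)) <
      𝓘.key (x (Sum.inr 0) * x (Sum.inl ()) + x (Sum.inr 1) + x (Sum.inr 2))) := by
  have h : 𝓘.KDf (fun (x : Unit ⊕ Fin 3 → K) (_ : Empty ⊕ Empty → ℕ) =>
      ∃ p, x (Sum.inr 0) * x (Sum.inl ()) = p ∧ ∃ q, p + x (Sum.inr 1) = q ∧
        ∃ r, q + x (Sum.inr 2) = r ∧ ¬ (𝓘.key r ≤ 𝓘.key q)) := by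
    apply KDf.exK
    refine (KDf.mul (some _) (some _) none).and ?_
    apply KDf.exK
    refine (KDf.add (some none) (some (some _)) none).and ?_
    apply KDf.exK
    refine (KDf.add (some none) (some (some (some _))) none).and ?_
    exact (KDf.keyLe none (some none)).not
  refine h.congr (fun x w => ?_)
  constructor
  · rintro ⟨p, rfl, q, rfl, r, rfl, h⟩
    exact not_le.1 h
  · intro h
    exact ⟨_, rfl, _, rfl, _, rfl, not_le.2 h⟩

/-- The second definable family. -/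
theorem kdf_two : 𝓘.KDf (fun (x : Empty ⊕ Fin 2 → K) (w : Fin 2 ⊕ Empty → ℕ) =>
    FloorSame (fun y => 𝓘.key (x (Sum.inr 1) + y)) (· ∈ 𝓘.I (w (Sum.inl 0)))
      (· ∈ 𝓘.I (w (Sum.inl 1))) (x (Sum.inr 0))) := by
  have h : 𝓘.KDf (fun (x : Empty ⊕ Fin 2 → K) (w : Fin 2 ⊕ Empty → ℕ) =>
      ∀ y, (y ∈ 𝓘.I (w (Sum.inl 1)) → ∀ p, (x (Sum.inr 1) + y = p → ∀ q,
        (x (Sum.inr 1) + x (Sum.inr 0) = q → (𝓘.key p ≤ 𝓘.key q → ∃ y', (y' ∈ 𝓘.I (w (Sum.inl 0)) ∧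
          ∃ p', (x (Sum.inr 1) + y' = p' ∧ (𝓘.key p ≤ 𝓘.key p' ∧ 𝓘.key p' ≤ 𝓘.key q)))))))) := by
    apply KDf.allK
    refine (KDf.memI none (Sum.inl 1)).imp ?_
    apply KDf.allK
    refine (KDf.add (some (some _)) (some none) none).imp ?_
    apply KDf.allK
    refine (KDf.add (some (some (some _))) (some (some (some _))) none).imp ?_
    refine (KDf.keyLe (some none) none).imp ?_
    apply KDf.exK
    refine (KDf.memI none (Sum.inl 0)).and ?_
    apply KDf.exK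
    refine (KDf.add (some (some (some (some (some _))))) (some none) none).and ?_
    exact (KDf.keyLe (some (some (some none))) none).and (KDf.keyLe none (some (some none)))
  refine h.congr (fun x w => ?_)
  unfold FloorSame
  constructor
  · intro h y hy hle
    obtain ⟨y', hy', p', rfl, h1, h2⟩ := h y hy _ rfl _ rfl hle
    exact ⟨y', hy', h1, h2⟩
  · rintro h y hy p rfl q rfl hle
    obtain ⟨y', hy', h1, h2⟩ := h y hy hle
    exact ⟨y', hy', _, rfl, h1, h2⟩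

include 𝓘 in
/-- No NIP structure on `ℕ` with definable order interprets an infinite field. -/
theorem contradiction (h : NIPHyp L) [Infinite K] : False := by
  classical
  obtain ⟨k, hk⟩ := 𝓘.nip_K h _ 𝓘.kdf_one
  obtain ⟨m, hm⟩ := 𝓘.nip_K h _ 𝓘.kdf_two
  have hVC : NoShatter (fun (j : K × K × K) (y : K) =>
      𝓘.key (j.1 * y + j.2.1) < 𝓘.key (j.1 * y + j.2.1 + j.2.2)) k := by
    intro A hA
    set F : K ↪ ((Unit → K) × (Empty → ℕ)) := ⟨fun y => (fun _ => y, fun e => e.elim), fun a b hab => by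
      exact congrFun (Prod.ext_iff.1 hab).1 ()⟩ with hF
    obtain ⟨B', hB'A, hB'⟩ := hk (A.map F) (by rw [Finset.card_map, hA])
    refine ⟨A.filter (fun a => F a ∈ B'), Finset.filter_subset _ _, fun j hj => ?_⟩
    apply hB' ![j.1, j.2.1, j.2.2] (fun e => e.elim)
    intro a' ha'
    rw [Finset.mem_map] at ha'
    obtain ⟨a, ha, rfl⟩ := ha'
    have h1 := hj a ha
    rw [Finset.mem_filter] at h1
    simp only [Sum.elim_inr, Sum.elim_inl, Matrix.cons_val_zero, Matrix.cons_val_one,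
      Matrix.cons_val]
    constructor
    · intro h; exact h1.1 ⟨ha, h⟩
    · intro h; exact (h1.2 h).2
  obtain ⟨A, hA, hsh⟩ := floors_shatter 𝓘.key 𝓘.key_injective 𝓘.I 𝓘.I_mono 𝓘.I_all k hVC m
  set G : ℕ × ℕ ↪ ((Empty → K) × (Fin 2 → ℕ)) := ⟨fun ab => (fun e => e.elim, ![ab.1, ab.2]),
    fun a b hab => by
      have := (Prod.ext_iff.1 hab).2
      exact Prod.ext (congrFun this 0) (congrFun this 1)⟩ with hG
  obtain ⟨B', hB'A, hB'⟩ := hm (A.map G) (by rw [Finset.card_map, hA])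
  obtain ⟨x, c, hxc⟩ := hsh (A.filter (fun a => G a ∈ B')) (Finset.filter_subset _ _)
  apply hB' ![x, c] (fun e => e.elim)
  intro a' ha'
  rw [Finset.mem_map] at ha'
  obtain ⟨a, ha, rfl⟩ := ha'
  have h1 := hxc a ha
  rw [Finset.mem_filter] at h1
  simp only [Sum.elim_inr, Sum.elim_inl, Matrix.cons_val_zero, Matrix.cons_val_one]
  constructor
  · intro h; exact h1.1 ⟨ha, h⟩
  · intro h; exact (h1.2 h).2

end Intp

end Pool.Agent.Work.MP_e693fe_lc
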