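import Mathlib
import Pool.Agent.Work.MP_e693fe_lc.Main

/-!
MP_e693fe_lc: reduction of the general form (languages of arbitrary cardinality, parameters,
interpretations as quotients, the independence property in an elementary extension) to
Work.MP_e693fe_lc.Main.  Author: helper77; the main theorem is helper19's.
-/

set_option autoImplicit false

namespace Pool.Agent.Work.MP_e693fe_lc.Gen

open FirstOrder FirstOrder.Language

universe u v w z

/-! ### The language of all definable sets -/

section DL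

variable (L : FirstOrder.Language.{u, v}) [L.Structure ℕ]

/-- The language with one relation symbol for each definable set of tuples. -/
def DL : FirstOrder.Language.{0, 0} where
  Functions := fun _ => Empty
  Relations := fun n => {s : Set (Fin n → ℕ) // (Set.univ : Set ℕ).Definable L s}

instance : (DL L).Structure ℕ where
  funMap := fun f => Empty.elim f
  RelMap := fun {_} R x => x ∈ R.1

variable {L}

/-- The relation symbol of a definable set. -/
def mkR {n : ℕ} (s : Set (Fin n → ℕ)) (h : (Set.univ : Set ℕ).Definable L s) : (DL L).Relations n :=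
  ⟨s, h⟩

theorem relMap_mkR {n : ℕ} (s : Set (Fin n → ℕ)) (h : (Set.univ : Set ℕ).Definable L s)
    (x : Fin n → ℕ) : Structure.RelMap (mkR s h) x ↔ x ∈ s := Iff.rfl

theorem term_var {γ : Type} (t : (DL L).Term γ) : ∃ x : γ, t = Term.var x := by
  cases t with
  | var x => exact ⟨x, rfl⟩
  | func f _ => exact Empty.elim f

theorem definable_of_bounded {α : Type} [Finite α] {n : ℕ} (φ : (DL L).BoundedFormula α n) :
    (Set.univ : Set ℕ).Definable L
      {v : α ⊕ Fin n → ℕ | φ.Realize (v ∘ Sum.inl) (v ∘ Sum.inr)} := by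
  induction φ with
  | falsum => simp [BoundedFormula.Realize]
  | @equal n t₁ t₂ =>
    obtain ⟨x, rfl⟩ := term_var t₁
    obtain ⟨y, rfl⟩ := term_var t₂
    refine ⟨(Term.var x).equal (Term.var y), ?_⟩
    ext v
    simp only [BoundedFormula.Realize, Term.realize_var, Set.mem_ofPred_eq,
      Formula.realize_equal]
    rw [Sum.elim_comp_inl_inr]
  | @rel n l R ts =>
    choose x hx using fun i => term_var (ts i)
    have h := R.2.preimage_comp x
    refine (congrArg _ ?_).mp h
    ext v
    simp only [BoundedFormula.Realize, Set.mem_preimage, Set.mem_ofPred_eq]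
    have e : (fun i => Term.realize (Sum.elim (v ∘ Sum.inl) (v ∘ Sum.inr)) (ts i)) = v ∘ x := by
      funext i
      rw [hx i, Term.realize_var, Sum.elim_comp_inl_inr]
      rfl
    rw [e]
    rfl
  | @imp n φ ψ h1 h2 =>
    refine (congrArg _ ?_).mp (h1.compl.union h2)
    ext v
    simp only [BoundedFormula.Realize, Set.mem_union, Set.mem_compl_iff, Set.mem_ofPred_eq]
    tauto
  | @all n φ h =>
    have h' := ((h.compl).image_comp (Sum.map id Fin.castSucc : α ⊕ Fin n → α ⊕ Fin (n + 1))).compl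
    refine (congrArg _ ?_).mp h'
    ext v
    simp only [BoundedFormula.Realize, Set.mem_compl_iff, Set.mem_image, Set.mem_ofPred_eq, not_exists,
      not_and]
    constructor
    · intro hv a
      by_contra hc
      refine hv (Sum.elim (v ∘ Sum.inl) (Fin.snoc (v ∘ Sum.inr) a)) ?_ ?_
      · simpa using hc
      · funext s
        rcases s with s | s
        · simp
        · simp
    · rintro hv g hg rfl
      apply hg
      have := hv (g (Sum.inr (Fin.last n)))
      have e1 : (g ∘ (Sum.map id Fin.castSucc : α ⊕ Fin n → α ⊕ Fin (n + 1))) ∘ Sum.inl =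
          g ∘ Sum.inl := by
        funext a
        rfl
      have e2 : (Fin.snoc ((g ∘ (Sum.map id Fin.castSucc : α ⊕ Fin n → α ⊕ Fin (n + 1))) ∘ Sum.inr)
          (g (Sum.inr (Fin.last n))) : Fin (n + 1) → ℕ) = g ∘ Sum.inr := by
        funext i
        refine Fin.lastCases ?_ (fun i => ?_) i
        · simp
        · simp
      rw [e1, e2] at this
      exact this

theorem definable_of_formula {α : Type} [Finite α] (φ : (DL L).Formula α) :
    (Set.univ : Set ℕ).Definable L {v : α → ℕ | φ.Realize v} := by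
  have h := (definable_of_bounded φ).image_comp (Sum.inl : α → α ⊕ Fin 0)
  refine (congrArg _ ?_).mp h
  ext v
  simp only [Set.mem_image, Set.mem_ofPred_eq]
  constructor
  · rintro ⟨g, hg, rfl⟩
    exact (congrArg (fun xs : Fin 0 → ℕ => BoundedFormula.Realize φ (g ∘ Sum.inl) xs)
      (Subsingleton.elim _ _)).mp hg
  · intro h
    refine ⟨Sum.elim v (fun i => i.elim0), ?_, rfl⟩
    rw [Sum.elim_comp_inl]
    exact (congrArg (fun xs : Fin 0 → ℕ => BoundedFormula.Realize φ v xs)
      (Subsingleton.elim _ _)).mp h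

theorem df_of_definable {α : Type} [Finite α] {s : Set (α → ℕ)}
    (h : (Set.univ : Set ℕ).Definable L s) : Df (DL L) (fun v => v ∈ s) := by
  classical
  cases nonempty_fintype α
  set e := Fintype.equivFin α
  have h' := h.image_comp_equiv e.symm
  refine ⟨Relations.formula (mkR _ h') (fun i => Term.var (e.symm i)), fun v => ?_⟩
  rw [Formula.realize_rel, relMap_mkR]
  show (fun i => v (e.symm i)) ∈ ((fun g : α → ℕ => g ∘ e.symm) '' s) ↔ v ∈ s
  constructor
  · rintro ⟨g, hg, hgv⟩
    have : g = v := by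
      funext a
      have := congrFun hgv (e a)
      simpa using this
    rwa [← this]
  · intro hv
    exact ⟨v, hv, rfl⟩

/-- Parameters of a definable set become variables. -/
theorem exists_formula_params {α : Type} {s : Set (α → ℕ)} (h : (Set.univ : Set ℕ).Definable L s) :
    ∃ (p : ℕ) (c : Fin p → ℕ) (φ : L.Formula (α ⊕ Fin p)), ∀ v, v ∈ s ↔ φ.Realize (Sum.elim v c) := by
  classical
  obtain ⟨A0, _, h0⟩ := Set.definable_iff_finitely_definable.1 h
  obtain ⟨φ, hφ⟩ := Set.definable_iff_exists_formula_sum.1 h0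
  have e : ((A0 : Set ℕ) : Type) ≃ Fin A0.card := A0.equivFin
  refine ⟨A0.card, fun i => ((e.symm i : (A0 : Set ℕ)) : ℕ),
    φ.relabel (Sum.elim (fun a => Sum.inr (e a)) Sum.inl), fun v => ?_⟩
  rw [hφ, Formula.realize_relabel, Set.mem_ofPred_eq]
  have : (Sum.elim v (fun i => ((e.symm i : (A0 : Set ℕ)) : ℕ)) ∘
      (Sum.elim (fun a => Sum.inr (e a)) Sum.inl : (A0 : Set ℕ) ⊕ α → α ⊕ Fin A0.card)) =
      Sum.elim (fun a : (A0 : Set ℕ) => (a : ℕ)) v := by
    funext s
    rcases s with a | a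
    · simp
    · simp
  rw [this]

end DL

/-! ### The ultrapower -/

section UP

variable {L : FirstOrder.Language.{u, v}} [L.Structure ℕ]

open Filter

/-- The ultrapower of the structure, with the canonical elementary embedding. -/
noncomputable def toUP : ℕ ↪ₑ[L] ((hyperfilter ℕ : Ultrafilter ℕ) : Filter ℕ).Product (fun _ => ℕ) where
  toFun := fun x => ((fun _ : ℕ => x : ∀ _ : ℕ, ℕ) :
    ((hyperfilter ℕ : Ultrafilter ℕ) : Filter ℕ).Product (fun _ => ℕ))
  map_formula' := by
    intro n φ x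
    have h := Ultraproduct.realize_formula_cast (u := hyperfilter ℕ) (M := fun _ : ℕ => ℕ) φ
      (fun i (_ : ℕ) => x i)
    refine Iff.trans h ?_
    simp

theorem exists_pattern {n m : ℕ} (φ : L.Formula (Fin n ⊕ Fin m))
    (h : ∀ k : ℕ, ∃ (a : Fin k → Fin n → ℕ) (b : Set (Fin k) → Fin m → ℕ),
      ∀ (i : Fin k) (S : Set (Fin k)), φ.Realize (Sum.elim (a i) (b S)) ↔ i ∈ S) :
    ∃ (N : Type w) (_ : L.Structure N) (_ : ℕ ↪ₑ[L] N) (a : ℕ → Fin n → N)
      (b : Set ℕ → Fin m → N), ∀ (i : ℕ) (S : Set ℕ), φ.Realize (Sum.elim (a i) (b S)) ↔ i ∈ S := by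
  classical
  choose a b hab using h
  -- the pattern in the ultrapower
  set U : Type := ((hyperfilter ℕ : Ultrafilter ℕ) : Filter ℕ).Product (fun _ => ℕ) with hU
  set a' : ℕ → Fin n → (∀ _ : ℕ, ℕ) := fun i j k => if h : i < k then a k ⟨i, h⟩ j else 0 with ha'
  set b' : Set ℕ → Fin m → (∀ _ : ℕ, ℕ) := fun S j k => b k {i | (i : ℕ) ∈ S} j with hb'
  have key : ∀ (i : ℕ) (S : Set ℕ), φ.Realize (Sum.elim (fun j => (a' i j : U)) (fun j => (b' S j : U)))
      ↔ i ∈ S := by
    intro i S
    have h := Ultraproduct.realize_formula_cast (u := hyperfilter ℕ) (M := fun _ : ℕ => ℕ) φ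
      (Sum.elim (a' i) (b' S))
    have e : (Sum.elim (fun j => (a' i j : U)) (fun j => (b' S j : U))) =
        (fun s => ((Sum.elim (a' i) (b' S) s : ∀ _ : ℕ, ℕ) : U)) := by
      funext s
      rcases s with s | s <;> rfl
    rw [e]
    refine h.trans ?_
    have hev : ∀ᶠ k : ℕ in (hyperfilter ℕ : Filter ℕ),
        ((φ.Realize fun s => (Sum.elim (a' i) (b' S) s) k) ↔ i ∈ S) := by
      have h1 : ∀ᶠ k : ℕ in (hyperfilter ℕ : Filter ℕ), i < k :=
        Nat.hyperfilter_le_atTop (eventually_gt_atTop i)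
      filter_upwards [h1] with k hk
      have h2 := hab k ⟨i, hk⟩ {i | (i : ℕ) ∈ S}
      have e2 : (fun s => (Sum.elim (a' i) (b' S) s) k) =
          Sum.elim (a k ⟨i, hk⟩) (b k {i | (i : ℕ) ∈ S}) := by
        funext s
        rcases s with s | s
        · simp [ha', hk]
        · simp [hb']
      rw [e2, h2]
      rfl
    constructor
    · intro h3
      obtain ⟨k, hk1, hk2⟩ := (h3.and hev).exists
      exact hk2.1 hk1
    · intro h3
      exact hev.mono (fun k hk => hk.2 h3)
  -- lift to the universe `w`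
  let _ : L.Structure (ULift.{w} U) := (Equiv.ulift (α := U)).symm.inducedStructure
  let E : U ≃[L] ULift.{w} U := (Equiv.ulift (α := U)).symm.inducedStructureEquiv
  refine ⟨ULift.{w} U, inferInstance, (E.toElementaryEmbedding).comp toUP,
    fun i j => E (a' i j : U), fun S j => E (b' S j : U), fun i S => ?_⟩
  rw [← key i S]
  have e : (Sum.elim (fun j => E (a' i j : U)) (fun j => E (b' S j : U))) =
      E ∘ (Sum.elim (fun j => (a' i j : U)) (fun j => (b' S j : U))) := by
    funext s
    rcases s with s | s <;> rfl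
  rw [e]
  exact StrongHomClass.realize_formula E φ

end UP

/-! ### From a failure of the finite form to a pattern without parameters -/

section Pat

variable {L : FirstOrder.Language.{u, v}} [L.Structure ℕ]

theorem exists_formula_of_not_nip (h : ¬ NIPHyp (DL L)) :
    ∃ (n m : ℕ) (φ : L.Formula (Fin n ⊕ Fin m)), ∀ k : ℕ,
      ∃ (a : Fin k → Fin n → ℕ) (b : Set (Fin k) → Fin m → ℕ),
        ∀ (i : Fin k) (S : Set (Fin k)), φ.Realize (Sum.elim (a i) (b S)) ↔ i ∈ S := by
  classical
  unfold NIPHyp at h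
  push Not at h
  obtain ⟨n, m, φ, hφ⟩ := h
  obtain ⟨p, c, ψ, hψ⟩ := exists_formula_params (definable_of_formula φ)
  refine ⟨n, m + p, ψ.relabel (Sum.elim (Sum.map id (Fin.castAdd p)) (fun i => Sum.inr (Fin.natAdd m i))),
    fun k => ?_⟩
  obtain ⟨A, hA, hAB⟩ := hφ k
  have e : (A : Type) ≃ Fin k := A.equivFinOfCardEq hA
  have hb : ∀ S : Set (Fin k), ∃ b : Fin m → ℕ, ∀ a ∈ A,
      (a ∈ A.filter (fun a => ∃ h : a ∈ A, e ⟨a, h⟩ ∈ S) ↔ φ.Realize (Sum.elim a b)) :=
    fun S => hAB _ (Finset.filter_subset _ _)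
  choose b hb using hb
  refine ⟨fun i => (e.symm i).1, fun S => Fin.append (b S) c, fun i S => ?_⟩
  have h1 := hb S (e.symm i).1 (e.symm i).2
  have h2 := hψ (Sum.elim (e.symm i).1 (b S))
  rw [Formula.realize_relabel]
  have e3 : (Sum.elim ((e.symm i).1) (Fin.append (b S) c) ∘
      Sum.elim (Sum.map id (Fin.castAdd p)) (fun i => Sum.inr (Fin.natAdd m i))) =
      Sum.elim (Sum.elim (e.symm i).1 (b S)) c := by
    funext s
    rcases s with (s | s) | s
    · simp
    · simp
    · simp
  rw [e3, ← h2, Set.mem_ofPred_eq, ← h1, Finset.mem_filter]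
  constructor
  · rintro ⟨_, _, h3⟩
    simpa using h3
  · intro h3
    exact ⟨(e.symm i).2, (e.symm i).2, by simpa using h3⟩

end Pat

/-! ### The interpretation -/

section Main

variable {L : FirstOrder.Language.{u, v}} [L.Structure ℕ]

/-- The main reduction. -/
theorem main (hlt : (Set.univ : Set ℕ).Definable L {v : Fin 2 → ℕ | v 0 < v 1})
    {K : Type z} [Field K] [Infinite K] {n : ℕ} (X : Set (Fin n → ℕ)) (E : Setoid X)
    (add mul : Quotient E → Quotient E → Quotient E)
    (hX : (Set.univ : Set ℕ).Definable L X)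
    (hE : (Set.univ : Set ℕ).Definable L {v : Fin 2 × Fin n → ℕ |
      ∃ x : Fin 2 → X, E (x 0) (x 1) ∧ ∀ i j, v (i, j) = (x i : Fin n → ℕ) j})
    (Da Dm : Set (Fin 3 → X))
    (hDa : (Set.univ : Set ℕ).Definable L {v : Fin 3 × Fin n → ℕ |
      ∃ x ∈ Da, ∀ i j, v (i, j) = (x i : Fin n → ℕ) j})
    (hDm : (Set.univ : Set ℕ).Definable L {v : Fin 3 × Fin n → ℕ |
      ∃ x ∈ Dm, ∀ i j, v (i, j) = (x i : Fin n → ℕ) j})
    (ha : ∀ a b c : Quotient E, add a b = c ↔ ∃ x ∈ Da, (Quotient.mk E (x 0)) = a ∧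
      (Quotient.mk E (x 1)) = b ∧ (Quotient.mk E (x 2)) = c)
    (hm : ∀ a b c : Quotient E, mul a b = c ↔ ∃ x ∈ Dm, (Quotient.mk E (x 0)) = a ∧
      (Quotient.mk E (x 1)) = b ∧ (Quotient.mk E (x 2)) = c)
    (e : Quotient E ≃ K) (e1 : ∀ a b, e (add a b) = e a + e b)
    (e2 : ∀ a b, e (mul a b) = e a * e b) :
    ∃ (n m : ℕ) (φ : L.Formula (Fin n ⊕ Fin m)), ∀ k : ℕ,
      ∃ (a : Fin k → Fin n → ℕ) (b : Set (Fin k) → Fin m → ℕ),
        ∀ (i : Fin k) (S : Set (Fin k)), φ.Realize (Sum.elim (a i) (b S)) ↔ i ∈ S := by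
  classical
  apply exists_formula_of_not_nip
  intro hNIP
  let _ : Field (Quotient E) := e.field
  have : Infinite (Quotient E) := Infinite.of_injective e.symm e.symm.injective
  have hadd : ∀ a b : Quotient E, a + b = add a b := by
    intro a b
    apply e.injective
    rw [e1]
    exact e.apply_symm_apply _
  have hmul : ∀ a b : Quotient E, a * b = mul a b := by
    intro a b
    apply e.injective
    rw [e2]
    exact e.apply_symm_apply _
  obtain ⟨DX, hDX⟩ := df_of_definable hX
  set f : (Fin n → ℕ) → Quotient E := fun a => if h : a ∈ X then Quotient.mk E ⟨a, h⟩ else 0 with hf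
  have hfX : ∀ (a : Fin n → ℕ) (h : a ∈ X), f a = Quotient.mk E ⟨a, h⟩ := by
    intro a h
    simp only [hf, h, dite_true]
  have hlt' : ∃ φ : (DL L).Formula (Fin 2), ∀ v : Fin 2 → ℕ, φ.Realize v ↔ v 0 < v 1 :=
    df_of_definable hlt
  have hEf : ∃ φ : (DL L).Formula (Fin 2 × Fin n), ∀ v, φ.Realize v ↔
      v ∈ {v : Fin 2 × Fin n → ℕ |
      ∃ x : Fin 2 → X, E (x 0) (x 1) ∧ ∀ i j, v (i, j) = (x i : Fin n → ℕ) j} := df_of_definable hE
  -- the saturation of a definable subset of the third power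
  have hsat : ∀ (D : Set (Fin 3 → X)),
      (Set.univ : Set ℕ).Definable L {v : Fin 3 × Fin n → ℕ |
        ∃ x ∈ D, ∀ i j, v (i, j) = (x i : Fin n → ℕ) j} →
      ∀ op : Quotient E → Quotient E → Quotient E,
      (∀ a b c : Quotient E, op a b = c ↔ ∃ x ∈ D, (Quotient.mk E (x 0)) = a ∧
        (Quotient.mk E (x 1)) = b ∧ (Quotient.mk E (x 2)) = c) →
      ∃ Ad : (DL L).Formula (Fin 3 × Fin n), ∀ a b c : Fin n → ℕ,
        DX.Realize a → DX.Realize b → DX.Realize c →
        (Ad.Realize (fun p => ![a, b, c] p.1 p.2) ↔ op (f a) (f b) = f c) := by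
    intro D hD op hop
    have h1 := df_of_definable hD
    have h2 : Df (DL L) (fun v : (Fin 3 × Fin n) ⊕ (Fin 3 × Fin n) → ℕ =>
        (v ∘ Sum.inr) ∈ {v : Fin 3 × Fin n → ℕ |
          ∃ x ∈ D, ∀ i j, v (i, j) = (x i : Fin n → ℕ) j} ∧
        ∀ i : Fin 3, (v ∘ (fun p : Fin 2 × Fin n => ![Sum.inl (i, p.2), Sum.inr (i, p.2)] p.1)) ∈
          {v : Fin 2 × Fin n → ℕ |
            ∃ x : Fin 2 → X, E (x 0) (x 1) ∧ ∀ i j, v (i, j) = (x i : Fin n → ℕ) j}) := by
      refine (h1.relabel Sum.inr).and (Df.finAll (fun i => ?_))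
      exact (df_of_definable hE).relabel _
    have h3 : Df (DL L) (fun v : (Fin 3 × Fin n) → ℕ => ∃ w : (Fin 3 × Fin n) → ℕ,
        w ∈ {v : Fin 3 × Fin n → ℕ |
          ∃ x ∈ D, ∀ i j, v (i, j) = (x i : Fin n → ℕ) j} ∧
        ∀ i : Fin 3, (fun p : Fin 2 × Fin n => ![v (i, p.2), w (i, p.2)] p.1) ∈
          {v : Fin 2 × Fin n → ℕ |
            ∃ x : Fin 2 → X, E (x 0) (x 1) ∧ ∀ i j, v (i, j) = (x i : Fin n → ℕ) j}) := by
      apply Df.ex
      refine h2.congr (fun v => ?_)
      refine and_congr Iff.rfl (forall_congr' (fun i => ?_))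
      have : (v ∘ (fun p : Fin 2 × Fin n => ![Sum.inl (i, p.2), Sum.inr (i, p.2)] p.1)) =
          (fun p : Fin 2 × Fin n => ![(v ∘ Sum.inl) (i, p.2), (v ∘ Sum.inr) (i, p.2)] p.1) := by
        funext p
        obtain ⟨r, s⟩ := p
        fin_cases r <;> rfl
      rw [this]
    obtain ⟨Ad, hAd⟩ := h3
    refine ⟨Ad, fun a b c haX hbX hcX => ?_⟩
    have haX' : a ∈ X := (hDX a).1 haX
    have hbX' : b ∈ X := (hDX b).1 hbX
    have hcX' : c ∈ X := (hDX c).1 hcX
    rw [hAd, hfX a haX', hfX b hbX', hfX c hcX', hop]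
    set abc : Fin 3 → X := ![⟨a, haX'⟩, ⟨b, hbX'⟩, ⟨c, hcX'⟩] with habc
    have habc' : ∀ i j, ![a, b, c] i j = (abc i : Fin n → ℕ) j := by
      intro i j
      fin_cases i <;> rfl
    constructor
    · rintro ⟨w, ⟨x, hxD, hxw⟩, hw⟩
      have hrel : ∀ i : Fin 3, Quotient.mk E (x i) = Quotient.mk E (abc i) := by
        intro i
        obtain ⟨y, hy, hyv⟩ := hw i
        have hy0 : y 0 = abc i := by
          apply Subtype.ext
          funext j
          have := hyv 0 j
          simp only [Matrix.cons_val_zero] at this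
          rw [← this, habc']
        have hy1 : y 1 = x i := by
          apply Subtype.ext
          funext j
          have := hyv 1 j
          simp only [Matrix.cons_val_one] at this
          rw [← this]
          exact hxw i j
        rw [hy0, hy1] at hy
        exact Quotient.sound (E.symm hy)
      exact ⟨x, hxD, hrel 0, hrel 1, hrel 2⟩
    · rintro ⟨x, hxD, hx0, hx1, hx2⟩
      refine ⟨fun p => (x p.1 : Fin n → ℕ) p.2, ⟨x, hxD, fun i j => rfl⟩, fun i => ?_⟩
      have hrel : E (abc i) (x i) := by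
        apply Quotient.exact
        fin_cases i
        · exact hx0.symm
        · exact hx1.symm
        · exact hx2.symm
      refine ⟨![abc i, x i], hrel, fun r j => ?_⟩
      fin_cases r
      · exact habc' i j
      · rfl
  refine Intp.contradiction (L := DL L) (K := Quotient E)
    { hlt := hlt', n := n, D := DX, f := f, surj := ?_, hE := ?_, hAd := ?_, hMu := ?_ } hNIP
  · intro x
    induction x using Quotient.inductionOn with
    | h a => exact ⟨a.1, (hDX a.1).2 a.2, hfX a.1 a.2⟩
  · obtain ⟨F, hF⟩ := hEf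
    refine ⟨F, fun a b haX hbX => ?_⟩
    have haX' : a ∈ X := (hDX a).1 haX
    have hbX' : b ∈ X := (hDX b).1 hbX
    rw [hF, hfX a haX', hfX b hbX']
    constructor
    · rintro ⟨x, hx, hxv⟩
      have h0 : x 0 = ⟨a, haX'⟩ := by
        apply Subtype.ext
        funext j
        exact (hxv 0 j).symm
      have h1 : x 1 = ⟨b, hbX'⟩ := by
        apply Subtype.ext
        funext j
        exact (hxv 1 j).symm
      rw [h0, h1] at hx
      exact Quotient.sound hx
    · intro h
      refine ⟨![⟨a, haX'⟩, ⟨b, hbX'⟩], Quotient.exact h, fun i j => ?_⟩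
      fin_cases i <;> rfl
  · obtain ⟨Ad, hAd⟩ := hsat Da hDa add ha
    exact ⟨Ad, fun a b c h1 h2 h3 => by rw [hAd a b c h1 h2 h3, hadd]⟩
  · obtain ⟨Ad, hAd⟩ := hsat Dm hDm mul hm
    exact ⟨Ad, fun a b c h1 h2 h3 => by rw [hAd a b c h1 h2 h3, hmul]⟩

end Main

end Pool.Agent.Work.MP_e693fe_lc.Gen
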