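import Pool.Agent.Results.MP_e693fe_lc.FieldGivesIP

/-!
Consistency check for the cold reader (not a hand-in): the frozen statement S15544 follows from
FieldGivesIP.result, in one page and without the work modules.  Author: helper77.
-/

set_option autoImplicit false

namespace Pool.Agent.Work.MP_e693fe_lc.HedgeCheck

open FirstOrder FirstOrder.Language
open Pool.Agent.Results.MP_e693fe_lc.FieldGivesIP


theorem frozen_of_own :
    ¬ (∃ (L : FirstOrder.Language.{0, 0}) (S : L.Structure ℕ),
      (∃ φ : L.Formula (Fin 2), ∀ v : Fin 2 → ℕ, φ.Realize v ↔ v 0 < v 1) ∧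
      (∀ (n m : ℕ) (φ : L.Formula (Fin n ⊕ Fin m)), ∃ k : ℕ,
        ∀ A : Finset (Fin n → ℕ), A.card = k →
          ∃ B ⊆ A, ∀ b : Fin m → ℕ,
            ¬ (∀ a ∈ A, (a ∈ B ↔ φ.Realize (Sum.elim a b)))) ∧
      (∃ (K : Type) (_ : Field K), Infinite K ∧
        ∃ (n : ℕ) (D : L.Formula (Fin n)) (f : (Fin n → ℕ) → K),
          (∀ x : K, ∃ a : Fin n → ℕ, D.Realize a ∧ f a = x) ∧
          (∃ E : L.Formula (Fin 2 × Fin n), ∀ a b : Fin n → ℕ,
            D.Realize a → D.Realize b →
              (E.Realize (fun p => ![a, b] p.1 p.2) ↔ f a = f b)) ∧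
          (∃ Ad : L.Formula (Fin 3 × Fin n), ∀ a b c : Fin n → ℕ,
            D.Realize a → D.Realize b → D.Realize c →
              (Ad.Realize (fun p => ![a, b, c] p.1 p.2) ↔ f a + f b = f c)) ∧
          (∃ Mu : L.Formula (Fin 3 × Fin n), ∀ a b c : Fin n → ℕ,
            D.Realize a → D.Realize b → D.Realize c →
              (Mu.Realize (fun p => ![a, b, c] p.1 p.2) ↔ f a * f b = f c)))) := by
  classical
  rintro ⟨L, S, ⟨lt, hlt⟩, hNIP, K, hK, hinf, n, D, f, hsurj, ⟨E, hE⟩, ⟨Ad, hAd⟩, ⟨Mu, hMu⟩⟩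
  have hdef : ∀ {ι : Type} (φ : L.Formula ι) (s : Set (ι → ℕ)), (∀ v, v ∈ s ↔ φ.Realize v) →
      IsDefinable L s := by
    intro ι φ s hs
    have h0 : (∅ : Set ℕ).Definable L s := Set.empty_definable_iff.2 ⟨φ, by ext v; exact hs v⟩
    exact h0.mono (Set.empty_subset _)
  set X : Set (Fin n → ℕ) := {a | D.Realize a} with hX
  set g : X → K := fun a => f a.1 with hg
  have hgs : Function.Surjective g := by
    intro x
    obtain ⟨a, ha, hx⟩ := hsurj x
    exact ⟨⟨a, ha⟩, hx⟩
  set e : Quotient (Setoid.ker g) ≃ K := Setoid.quotientKerEquivOfSurjective g hgs with he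
  have hemk : ∀ a : X, e (Quotient.mk _ a) = g a := fun a => rfl
  have hop : ∀ (op : K → K → K) (F : L.Formula (Fin 3 × Fin n)),
      (∀ a b c : Fin n → ℕ, D.Realize a → D.Realize b → D.Realize c →
              (F.Realize (fun p => ![a, b, c] p.1 p.2) ↔ op (f a) (f b) = f c)) →
      DefinableOp L (Setoid.ker g) (fun a b => e.symm (op (e a) (e b))) := by
    intro op F hF
    refine ⟨{x | op (g (x 0)) (g (x 1)) = g (x 2)}, ?_, ?_⟩
    · refine hdef (F ⊓ ((D.relabel (fun j => ((0 : Fin 3), j))) ⊓ ((D.relabel (fun j => ((1 : Fin 3), j))) ⊓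
        (D.relabel (fun j => ((2 : Fin 3), j)))))) _ (fun v => ?_)
      rw [Formula.realize_inf, Formula.realize_inf, Formula.realize_inf, Formula.realize_relabel,
        Formula.realize_relabel, Formula.realize_relabel]
      have ev : (fun p : Fin 3 × Fin n => ![(v ∘ fun j => ((0 : Fin 3), j)), (v ∘ fun j => ((1 : Fin 3), j)),
          (v ∘ fun j => ((2 : Fin 3), j))] p.1 p.2) = v := by
        funext p
        obtain ⟨i, j⟩ := p
        fin_cases i <;> rfl
      constructor
      · rintro ⟨x, hx, hxv⟩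
        have e0 : (v ∘ fun j => ((0 : Fin 3), j)) = (x 0).1 := funext (fun j => hxv 0 j)
        have e1 : (v ∘ fun j => ((1 : Fin 3), j)) = (x 1).1 := funext (fun j => hxv 1 j)
        have e2 : (v ∘ fun j => ((2 : Fin 3), j)) = (x 2).1 := funext (fun j => hxv 2 j)
        rw [e0, e1, e2] at ev
        refine ⟨?_, ?_, ?_, ?_⟩
        · rw [← ev, hF _ _ _ (x 0).2 (x 1).2 (x 2).2]
          exact hx
        · rw [e0]; exact (x 0).2
        · rw [e1]; exact (x 1).2
        · rw [e2]; exact (x 2).2
      · rintro ⟨h, h0, h1, h2⟩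
        refine ⟨![⟨_, h0⟩, ⟨_, h1⟩, ⟨_, h2⟩], ?_, ?_⟩
        · rw [← ev, hF _ _ _ h0 h1 h2] at h
          exact h
        · intro i j
          fin_cases i <;> rfl
    · intro a b c
      induction a using Quotient.inductionOn with
      | h a =>
      induction b using Quotient.inductionOn with
      | h b =>
      induction c using Quotient.inductionOn with
      | h c =>
      constructor
      · intro h
        refine ⟨![a, b, c], ?_, rfl, rfl, rfl⟩
        have h' := congrArg e h
        rw [e.apply_symm_apply] at h'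
        exact h'
      · rintro ⟨x, hx, h0, h1, h2⟩
        rw [← h0, ← h1, ← h2]
        apply e.injective
        rw [e.apply_symm_apply]
        exact hx
  have hI : Interpretable L K := by
    refine ⟨n, X, Setoid.ker g, fun a b => e.symm (e a + e b), fun a b => e.symm (e a * e b), ?_, ?_, ?_, ?_,
      e, fun a b => e.apply_symm_apply _, fun a b => e.apply_symm_apply _⟩
    · exact hdef D _ (fun v => Iff.rfl)
    · refine hdef (E ⊓ ((D.relabel (fun j => ((0 : Fin 2), j))) ⊓ (D.relabel (fun j => ((1 : Fin 2), j))))) _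
        (fun v => ?_)
      rw [Formula.realize_inf, Formula.realize_inf, Formula.realize_relabel,
        Formula.realize_relabel]
      have ev : (fun p : Fin 2 × Fin n => ![(v ∘ fun j => ((0 : Fin 2), j)), (v ∘ fun j => ((1 : Fin 2), j))]
          p.1 p.2) = v := by
        funext p
        obtain ⟨i, j⟩ := p
        fin_cases i <;> rfl
      constructor
      · rintro ⟨x, hx, hxv⟩
        have e0 : (v ∘ fun j => ((0 : Fin 2), j)) = (x 0).1 := funext (fun j => hxv 0 j)
        have e1 : (v ∘ fun j => ((1 : Fin 2), j)) = (x 1).1 := funext (fun j => hxv 1 j)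
        rw [e0, e1] at ev
        refine ⟨?_, ?_, ?_⟩
        · rw [← ev, hE _ _ (x 0).2 (x 1).2]
          exact hx
        · rw [e0]; exact (x 0).2
        · rw [e1]; exact (x 1).2
      · rintro ⟨h, h0, h1⟩
        refine ⟨![⟨_, h0⟩, ⟨_, h1⟩], ?_, ?_⟩
        · rw [← ev, hE _ _ h0 h1] at h
          exact h
        · intro i j
          fin_cases i <;> rfl
    · exact hop (· + ·) Ad hAd
    · exact hop (· * ·) Mu hMu
  obtain ⟨p, q, φ, -, hφ⟩ := result.{0, 0, 0, 0} L (hdef lt _ (fun v => (hlt v).symm)) K hI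
  obtain ⟨k, hk⟩ := hNIP p q φ
  obtain ⟨a, b, hab⟩ := hφ k
  have hinj : Function.Injective a := by
    intro i j hij
    have h1 := (hab i {i}).2 rfl
    rw [hij] at h1
    exact ((hab j {i}).1 h1).symm
  obtain ⟨B, hB, hBb⟩ := hk (Finset.univ.image a) (by rw [Finset.card_image_of_injective _ hinj]; simp)
  apply hBb (b {i | a i ∈ B})
  intro x hx
  obtain ⟨i, -, rfl⟩ := Finset.mem_image.1 hx
  exact (hab i {i | a i ∈ B}).symm

end Pool.Agent.Work.MP_e693fe_lc.HedgeCheck
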